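import Pool.Agent.Helper71.LW.Defs

/-!
# Lu-Wenzel, part A.1: matrices `0 <= rho <= 1` with trace `2`, compactness
-/

set_option autoImplicit false

namespace Pool.Agent.Helper71.LW

open Matrix

variable {K : Type} [RCLike K] {n : ℕ}


/-- the real quadratic form `re <v, A v>` -/
noncomputable def qf (A : Matrix (Fin n) (Fin n) K) (v : Fin n → K) : ℝ :=
  RCLike.re (star v ⬝ᵥ (A *ᵥ v))

lemma qf_add (A B : Matrix (Fin n) (Fin n) K) (v : Fin n → K) : qf (A + B) v = qf A v + qf B v := by
  simp [qf, Matrix.add_mulVec, dotProduct_add]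

lemma qf_sub (A B : Matrix (Fin n) (Fin n) K) (v : Fin n → K) : qf (A - B) v = qf A v - qf B v := by
  simp [qf, Matrix.sub_mulVec, dotProduct_sub]

lemma qf_smul (t : ℝ) (A : Matrix (Fin n) (Fin n) K) (v : Fin n → K) :
    qf ((t : K) • A) v = t * qf A v := by
  rw [qf, qf, Matrix.smul_mulVec, dotProduct_smul, smul_eq_mul, RCLike.re_ofReal_mul]

lemma qf_one (v : Fin n → K) : qf (1 : Matrix (Fin n) (Fin n) K) v = ∑ i, ‖v i‖ ^ 2 := by
  simp only [qf, one_mulVec, dotProduct, map_sum]
  refine Finset.sum_congr rfl fun i _ => ?_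
  rw [Pi.star_apply, RCLike.star_def, RCLike.conj_mul]
  norm_cast

lemma qf_diagonal (p : Fin n → ℝ) (v : Fin n → K) :
    qf (diagonal fun i => (p i : K)) v = ∑ i, p i * ‖v i‖ ^ 2 := by
  simp only [qf, dotProduct, map_sum, mulVec_diagonal]
  refine Finset.sum_congr rfl fun i _ => ?_
  have : star v i * ((p i : K) * v i) = ((p i * ‖v i‖ ^ 2 : ℝ) : K) := by
    rw [Pi.star_apply, RCLike.star_def, mul_left_comm, RCLike.conj_mul]
    push_cast; ring
  rw [this, RCLike.ofReal_re]

lemma qf_single (i j : Fin n) (c : K) (v : Fin n → K) :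
    qf (Matrix.single i j c) v = RCLike.re (star (v i) * c * v j) := by
  have : star v ⬝ᵥ (Matrix.single i j c *ᵥ v) = star (v i) * c * v j := by
    rw [dotProduct, Finset.sum_eq_single i]
    · rw [mulVec, dotProduct, Finset.sum_eq_single j]
      · simp [Matrix.single, mul_assoc]
      · intro b _ hb; simp [Matrix.single, hb.symm]
      · simp
    · intro b _ hb
      rw [mulVec, dotProduct, Finset.sum_eq_zero, mul_zero]
      intro x _; simp [Matrix.single, hb.symm]
    · simp
  rw [qf, this]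

lemma qf_conj (U A : Matrix (Fin n) (Fin n) K) (v : Fin n → K) :
    qf (Uᴴ * A * U) v = qf A (U *ᵥ v) := by
  have : star v ⬝ᵥ ((Uᴴ * A * U) *ᵥ v) = star (U *ᵥ v) ⬝ᵥ (A *ᵥ (U *ᵥ v)) := by
    rw [star_mulVec, ← mulVec_mulVec, ← mulVec_mulVec, dotProduct_mulVec, dotProduct_mulVec,
      dotProduct_mulVec, vecMul_vecMul]
  rw [qf, this, qf]

/-- Hermitian matrices `0 <= rho <= 1` with trace `2`. -/
def St (K : Type) [RCLike K] (n : ℕ) : Set (Matrix (Fin n) (Fin n) K) :=
  {ρ | ρᴴ = ρ ∧ (∀ v, 0 ≤ qf ρ v) ∧ (∀ v, qf ρ v ≤ qf 1 v) ∧ ρ.trace = 2}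

lemma continuous_qf (v : Fin n → K) : Continuous fun A : Matrix (Fin n) (Fin n) K => qf A v := by
  unfold qf
  fun_prop

lemma St_closed : IsClosed (St K n) := by
  have h1 : IsClosed {ρ : Matrix (Fin n) (Fin n) K | ρᴴ = ρ} :=
    isClosed_eq (by fun_prop) continuous_id
  have h2 : IsClosed {ρ : Matrix (Fin n) (Fin n) K | ∀ v, 0 ≤ qf ρ v} := by
    rw [Set.ofPred_forall]
    exact isClosed_iInter fun v => isClosed_le continuous_const (continuous_qf v)
  have h3 : IsClosed {ρ : Matrix (Fin n) (Fin n) K | ∀ v, qf ρ v ≤ qf 1 v} := by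
    rw [Set.ofPred_forall]
    exact isClosed_iInter fun v => isClosed_le (continuous_qf v) continuous_const
  have h4 : IsClosed {ρ : Matrix (Fin n) (Fin n) K | ρ.trace = 2} :=
    isClosed_eq (by unfold Matrix.trace Matrix.diag; fun_prop) continuous_const
  exact h1.inter (h2.inter (h3.inter h4))

lemma qf_pair (A : Matrix (Fin n) (Fin n) K) (hA : Aᴴ = A) {i j : Fin n} (hij : i ≠ j) (ω : K) :
    qf A (Pi.single i 1 + Pi.single j ω) =
      RCLike.re (A i i) + ‖ω‖ ^ 2 * RCLike.re (A j j) + 2 * RCLike.re (A i j * ω) := by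
  have h1 : A *ᵥ (Pi.single i 1 + Pi.single j ω) = fun l => A l i + A l j * ω := by
    ext l
    rw [mulVec_add, Pi.add_apply, mulVec_single, mulVec_single]
    simp [mul_comm]
  have h2 : star (Pi.single i 1 + Pi.single j ω : Fin n → K) ⬝ᵥ (fun l => A l i + A l j * ω) =
      (A i i + A i j * ω) + star ω * (A j i + A j j * ω) := by
    have : star (Pi.single i 1 + Pi.single j ω : Fin n → K) = Pi.single i 1 + Pi.single j (star ω) := by
      rw [star_add, ← Pi.single_star, ← Pi.single_star, star_one]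
    rw [this, add_dotProduct, single_dotProduct, single_dotProduct, one_mul]
  have h3 : A j i = star (A i j) := by
    conv_lhs => rw [← hA]
    rfl
  rw [qf, h1, h2, h3]
  have h4 : star ω * (star (A i j) + A j j * ω) = star (A i j * ω) + ((‖ω‖ ^ 2 : ℝ) : K) * A j j := by
    have := RCLike.conj_mul ω
    rw [← RCLike.star_def] at this
    rw [star_mul]
    push_cast
    rw [← this]; ring
  rw [h4]
  simp only [map_add, RCLike.re_ofReal_mul, RCLike.star_def, RCLike.conj_re]
  ring

lemma St_norm_le {ρ : Matrix (Fin n) (Fin n) K} (h : ρ ∈ St K n) (i j : Fin n) : ‖ρ i j‖ ≤ 1 := by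
  obtain ⟨h1, h2, h3, -⟩ := h
  have hd : ∀ i, 0 ≤ RCLike.re (ρ i i) ∧ RCLike.re (ρ i i) ≤ 1 := by
    intro i
    have e1 : qf ρ (Pi.single i 1) = RCLike.re (ρ i i) := by
      rw [qf, mulVec_single_one, ← Pi.single_star, star_one, single_dotProduct]; simp
    have e2 : qf (1 : Matrix (Fin n) (Fin n) K) (Pi.single i 1) = 1 := by
      rw [qf, mulVec_single_one, ← Pi.single_star, star_one, single_dotProduct]; simp
    exact ⟨e1 ▸ h2 _, by rw [← e1, ← e2]; exact h3 _⟩
  have hre : ∀ i, ρ i i = ((RCLike.re (ρ i i) : ℝ) : K) := by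
    intro i
    have : star (ρ i i) = ρ i i := by
      conv_rhs => rw [← h1]
      rfl
    rw [RCLike.star_def, RCLike.conj_eq_iff_re] at this
    exact this.symm
  rcases eq_or_ne i j with rfl | hij
  · rw [hre i, RCLike.norm_ofReal, abs_of_nonneg (hd i).1]
    exact (hd i).2
  · rcases eq_or_ne (ρ i j) 0 with h0 | h0
    · rw [h0, norm_zero]; exact zero_le_one
    · have hn : (‖ρ i j‖ : K) ≠ 0 := by
        simpa using h0
      have hn' : (‖ρ i j‖ : ℝ) ≠ 0 := by simpa using h0
      set ω : K := -(star (ρ i j)) / (‖ρ i j‖ : K) with hω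
      have hωn : ‖ω‖ = 1 := by
        rw [hω, norm_div, norm_neg, norm_star, RCLike.norm_ofReal, abs_norm, div_self hn']
      have hprod : ρ i j * ω = -((‖ρ i j‖ : ℝ) : K) := by
        rw [hω, mul_div_assoc', mul_neg, RCLike.star_def, RCLike.mul_conj]
        field_simp
      have := h2 (Pi.single i 1 + Pi.single j ω)
      rw [qf_pair ρ h1 hij, hprod, hωn] at this
      simp only [map_neg, RCLike.ofReal_re] at this
      have a1 := (hd i).2
      have a2 := (hd j).2
      linarith

lemma St_compact : IsCompact (St K n) := by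
  have : IsCompact (Set.univ.pi fun _ : Fin n => Set.univ.pi fun _ : Fin n =>
      Metric.closedBall (0 : K) 1) :=
    isCompact_univ_pi fun _ => isCompact_univ_pi fun _ => isCompact_closedBall _ _
  refine IsCompact.of_isClosed_subset this St_closed ?_
  intro ρ hρ i _ j _
  rw [mem_closedBall_zero_iff]
  exact St_norm_le hρ i j

end Pool.Agent.Helper71.LW
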