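import Pool.Agent.Helper71.LW.Choice1

/-!
# Lu-Wenzel, part A.2: the maximiser is a projection
-/

set_option autoImplicit false

namespace Pool.Agent.Helper71.LW

open Matrix

variable {K : Type} [RCLike K] {n : ℕ}

/-- spectral theorem, plain form -/
lemma exists_diag (A : Matrix (Fin n) (Fin n) K) (hA : Aᴴ = A) :
    ∃ (U : Matrix (Fin n) (Fin n) K) (p : Fin n → ℝ), U * Uᴴ = 1 ∧ Uᴴ * U = 1 ∧
      Uᴴ * A * U = diagonal fun i => (p i : K) := by
  have hH : A.IsHermitian := hA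
  have hs := hH.spectral_theorem
  rw [Unitary.conjStarAlgAut_apply] at hs
  set U := (hH.eigenvectorUnitary : Matrix (Fin n) (Fin n) K) with hU
  have h1 : U * Uᴴ = 1 := by
    have := hH.eigenvectorUnitary.2
    exact (mem_unitaryGroup_iff.1 this)
  have h2 : Uᴴ * U = 1 := by
    have := hH.eigenvectorUnitary.2
    exact (mem_unitaryGroup_iff'.1 this)
  refine ⟨U, hH.eigenvalues, h1, h2, ?_⟩
  conv_lhs => rw [hs]
  rw [star_eq_conjTranspose]
  have : Uᴴ * (U * diagonal (RCLike.ofReal ∘ hH.eigenvalues) * Uᴴ) * U =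
      (Uᴴ * U) * diagonal (RCLike.ofReal ∘ hH.eigenvalues) * (Uᴴ * U) := by
    simp only [Matrix.mul_assoc]
  rw [this, h2, one_mul, mul_one]
  rfl

lemma St_conj {U ρ : Matrix (Fin n) (Fin n) K} (hU : U * Uᴴ = 1) (hU' : Uᴴ * U = 1)
    (h : ρ ∈ St K n) : Uᴴ * ρ * U ∈ St K n := by
  obtain ⟨h1, h2, h3, h4⟩ := h
  refine ⟨?_, ?_, ?_, ?_⟩
  · rw [conjTranspose_mul, conjTranspose_mul, conjTranspose_conjTranspose, h1, Matrix.mul_assoc]
  · intro v; rw [qf_conj]; exact h2 _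
  · intro v; rw [qf_conj]
    refine (h3 _).trans (le_of_eq ?_)
    rw [← qf_conj U 1 v, mul_one, hU']
  · rw [trace_mul_cycle, hU, one_mul, h4]

/-- the concave functional `tr(rho G) - |tr rho X|^2` -/
noncomputable def psi (X ρ : Matrix (Fin n) (Fin n) K) : ℝ :=
  RCLike.re (ρ * (X * Xᴴ + Xᴴ * X)).trace - ‖(ρ * X).trace‖ ^ 2

/-- `tr rho^2` -/
noncomputable def tau (ρ : Matrix (Fin n) (Fin n) K) : ℝ := RCLike.re (ρ * ρ).trace

lemma trace_conj2 {U A B : Matrix (Fin n) (Fin n) K} (hU : U * Uᴴ = 1) :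
    ((Uᴴ * A * U) * (Uᴴ * B * U)).trace = (A * B).trace := by
  have : (Uᴴ * A * U) * (Uᴴ * B * U) = Uᴴ * (A * (U * Uᴴ) * B) * U := by
    simp only [Matrix.mul_assoc]
  rw [this, hU, mul_one, trace_mul_cycle, hU, one_mul]

lemma conj_gg {U X : Matrix (Fin n) (Fin n) K} (hU : U * Uᴴ = 1) :
    (Uᴴ * X * U) * (Uᴴ * X * U)ᴴ + (Uᴴ * X * U)ᴴ * (Uᴴ * X * U) =
      Uᴴ * (X * Xᴴ + Xᴴ * X) * U := by
  have e : (Uᴴ * X * U)ᴴ = Uᴴ * Xᴴ * U := by
    rw [conjTranspose_mul, conjTranspose_mul, conjTranspose_conjTranspose, Matrix.mul_assoc]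
  rw [e]
  have h1 : ∀ A B : Matrix (Fin n) (Fin n) K, (Uᴴ * A * U) * (Uᴴ * B * U) = Uᴴ * (A * B) * U := by
    intro A B
    have : (Uᴴ * A * U) * (Uᴴ * B * U) = Uᴴ * (A * (U * Uᴴ) * B) * U := by
      simp only [Matrix.mul_assoc]
    rw [this, hU, mul_one]
  rw [h1, h1, ← add_mul, ← mul_add]

lemma psi_conj {U X ρ : Matrix (Fin n) (Fin n) K} (hU : U * Uᴴ = 1) :
    psi (Uᴴ * X * U) (Uᴴ * ρ * U) = psi X ρ := by
  rw [psi, conj_gg hU, trace_conj2 hU, trace_conj2 hU, psi]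

lemma tau_conj {U ρ : Matrix (Fin n) (Fin n) K} (hU : U * Uᴴ = 1) :
    tau (Uᴴ * ρ * U) = tau ρ := by
  rw [tau, trace_conj2 hU, tau]

/-- lexicographic maximiser -/
structure LexMax (X ρ : Matrix (Fin n) (Fin n) K) : Prop where
  mem : ρ ∈ St K n
  max : ∀ σ ∈ St K n, psi X σ ≤ psi X ρ
  lex : ∀ σ ∈ St K n, psi X σ = psi X ρ → tau σ ≤ tau ρ

lemma continuous_psi (X : Matrix (Fin n) (Fin n) K) : Continuous (psi X) := by
  unfold psi Matrix.trace Matrix.diag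
  fun_prop

lemma continuous_tau : Continuous (tau : Matrix (Fin n) (Fin n) K → ℝ) := by
  unfold tau Matrix.trace Matrix.diag
  fun_prop

lemma St_diag {p : Fin n → ℝ} (h0 : ∀ i, 0 ≤ p i) (h1 : ∀ i, p i ≤ 1) (hs : ∑ i, p i = 2) :
    (diagonal fun i => (p i : K)) ∈ St K n := by
  refine ⟨?_, ?_, ?_, ?_⟩
  · rw [diagonal_conjTranspose]
    congr 1
    ext i
    simp
  · intro v; rw [qf_diagonal]
    exact Finset.sum_nonneg fun i _ => mul_nonneg (h0 i) (by positivity)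
  · intro v; rw [qf_diagonal, qf_one]
    refine Finset.sum_le_sum fun i _ => ?_
    exact mul_le_of_le_one_left (by positivity) (h1 i)
  · rw [trace_diagonal, ← RCLike.ofReal_sum, hs]; exact RCLike.ofReal_ofNat 2

lemma sum_two {i j : Fin n} (hij : i ≠ j) :
    ∑ k, (if k = i ∨ k = j then (1 : ℝ) else 0) = 2 := by
  rw [Finset.sum_ite, Finset.sum_const_zero, add_zero, Finset.sum_const, nsmul_eq_mul, mul_one]
  have : Finset.univ.filter (fun k => k = i ∨ k = j) = {i, j} := by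
    ext k; simp
  rw [this, Finset.card_pair hij]; norm_num

lemma St_nonempty (hn : 2 ≤ n) : (St K n).Nonempty := by
  refine ⟨_, St_diag (p := fun k => if k = ⟨0, by omega⟩ ∨ k = ⟨1, by omega⟩ then 1 else 0)
    (fun i => ?_) (fun i => ?_) (sum_two ?_)⟩
  · split_ifs <;> norm_num
  · split_ifs <;> norm_num
  · intro h; simp [Fin.ext_iff] at h

lemma exists_lexMax (hn : 2 ≤ n) (X : Matrix (Fin n) (Fin n) K) : ∃ ρ, LexMax X ρ := by
  obtain ⟨ρ0, h0, h0m⟩ := St_compact.exists_isMaxOn (St_nonempty hn)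
    (continuous_psi X).continuousOn
  have hc : IsCompact (St K n ∩ {ρ | psi X ρ = psi X ρ0}) :=
    St_compact.inter_right (isClosed_eq (continuous_psi X) continuous_const)
  obtain ⟨ρ, hρ, hρm⟩ := hc.exists_isMaxOn ⟨ρ0, h0, rfl⟩ continuous_tau.continuousOn
  have hρ2 : psi X ρ = psi X ρ0 := hρ.2
  refine ⟨ρ, hρ.1, ?_, ?_⟩
  · intro σ hσ; rw [hρ2]; exact h0m hσ
  · intro σ hσ he; exact hρm ⟨hσ, he.trans hρ2⟩

lemma LexMax.conj {X ρ U : Matrix (Fin n) (Fin n) K} (h : LexMax X ρ) (hU : U * Uᴴ = 1)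
    (hU' : Uᴴ * U = 1) : LexMax (Uᴴ * X * U) (Uᴴ * ρ * U) := by
  have key : ∀ σ ∈ St K n, ∃ σ' ∈ St K n, σ = Uᴴ * σ' * U := by
    intro σ hσ
    refine ⟨U * σ * Uᴴ, ?_, ?_⟩
    · have := St_conj (U := Uᴴ) (by rw [conjTranspose_conjTranspose, hU'])
        (by rw [conjTranspose_conjTranspose, hU]) hσ
      rwa [conjTranspose_conjTranspose] at this
    · have : Uᴴ * (U * σ * Uᴴ) * U = (Uᴴ * U) * σ * (Uᴴ * U) := by simp only [Matrix.mul_assoc]
      rw [this, hU', one_mul, mul_one]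
  refine ⟨St_conj hU hU' h.mem, ?_, ?_⟩
  · intro σ hσ
    obtain ⟨σ', h1, rfl⟩ := key σ hσ
    rw [psi_conj hU, psi_conj hU]; exact h.max _ h1
  · intro σ hσ he
    obtain ⟨σ', h1, rfl⟩ := key σ hσ
    rw [psi_conj hU, psi_conj hU] at he
    rw [tau_conj hU, tau_conj hU]; exact h.lex _ h1 he

end Pool.Agent.Helper71.LW
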