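import Pool.Agent.Helper71.LW.Choice2

/-!
# Lu-Wenzel, part A.3: no fractional eigenvalues
-/

set_option autoImplicit false

namespace Pool.Agent.Helper71.LW

open Matrix

variable {K : Type} [RCLike K] {n : ℕ}

/-- the perturbation -/
noncomputable def HH (i j : Fin n) (x : ℝ) (y : K) : Matrix (Fin n) (Fin n) K :=
  Matrix.single i i (x : K) - Matrix.single j j (x : K) + Matrix.single i j y +
    Matrix.single j i (star y)

lemma HH_herm (i j : Fin n) (x : ℝ) (y : K) : (HH i j x y)ᴴ = HH i j x y := by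
  have h : star (x : K) = (x : K) := by simp
  simp only [HH, conjTranspose_add, conjTranspose_sub, conjTranspose_single, h, star_star]
  abel

lemma HH_trace {i j : Fin n} (hij : i ≠ j) (x : ℝ) (y : K) : (HH i j x y).trace = 0 := by
  rw [HH, trace_add, trace_add, trace_sub, trace_single_eq_same, trace_single_eq_same,
    trace_single_eq_of_ne i j y hij, trace_single_eq_of_ne j i _ hij.symm]
  simp

lemma HH_mul_trace (i j : Fin n) (x : ℝ) (y : K) (M : Matrix (Fin n) (Fin n) K) :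
    (HH i j x y * M).trace = x * (M i i - M j j) + y * M j i + star y * M i j := by
  rw [HH, add_mul, add_mul, sub_mul, trace_add, trace_add, trace_sub, trace_single_mul,
    trace_single_mul, trace_single_mul, trace_single_mul]
  simp only [smul_eq_mul]
  ring

lemma norm_sq_star_mul (z : K) : RCLike.re (star z * z) = ‖z‖ ^ 2 := by
  rw [RCLike.star_def, RCLike.conj_mul]
  norm_cast

lemma HH_qf (i j : Fin n) (x : ℝ) (y : K) (v : Fin n → K) :
    qf (HH i j x y) v = x * ‖v i‖ ^ 2 - x * ‖v j‖ ^ 2 + 2 * RCLike.re (star (v i) * y * v j) := by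
  rw [HH, qf_add, qf_add, qf_sub, qf_single, qf_single, qf_single, qf_single]
  have h1 : ∀ k, RCLike.re (star (v k) * (x : K) * v k) = x * ‖v k‖ ^ 2 := by
    intro k
    rw [mul_comm (star (v k)), mul_assoc, RCLike.re_ofReal_mul, norm_sq_star_mul]
  have h2 : RCLike.re (star (v j) * star y * v i) = RCLike.re (star (v i) * y * v j) := by
    have : star (star (v i) * y * v j) = star (v j) * star y * v i := by
      simp only [star_mul, star_star, mul_assoc]
    rw [← this, RCLike.star_def, RCLike.conj_re]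
  rw [h1, h1, h2]; ring

lemma HH_qf_abs (i j : Fin n) (x : ℝ) (y : K) (v : Fin n → K) :
    |qf (HH i j x y) v| ≤ (|x| + ‖y‖) * (‖v i‖ ^ 2 + ‖v j‖ ^ 2) := by
  rw [HH_qf]
  have h1 : |RCLike.re (star (v i) * y * v j)| ≤ ‖v i‖ * ‖y‖ * ‖v j‖ := by
    refine (RCLike.abs_re_le_norm _).trans (le_of_eq ?_)
    rw [norm_mul, norm_mul, norm_star]
  have h2 : 2 * (‖v i‖ * ‖v j‖) ≤ ‖v i‖ ^ 2 + ‖v j‖ ^ 2 := by
    nlinarith [sq_nonneg (‖v i‖ - ‖v j‖)]
  have h3 : |x * ‖v i‖ ^ 2 - x * ‖v j‖ ^ 2| ≤ |x| * (‖v i‖ ^ 2 + ‖v j‖ ^ 2) := by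
    rw [← mul_sub, abs_mul]
    refine mul_le_mul_of_nonneg_left ?_ (abs_nonneg x)
    rw [abs_le]; constructor <;> nlinarith [sq_nonneg ‖v i‖, sq_nonneg ‖v j‖]
  have h4 : |2 * RCLike.re (star (v i) * y * v j)| ≤ ‖y‖ * (‖v i‖ ^ 2 + ‖v j‖ ^ 2) := by
    rw [abs_mul, abs_two]
    have := norm_nonneg y
    nlinarith
  calc _ ≤ |x * ‖v i‖ ^ 2 - x * ‖v j‖ ^ 2| + |2 * RCLike.re (star (v i) * y * v j)| := abs_add_le _ _
    _ ≤ _ := by rw [add_mul]; exact add_le_add h3 h4

lemma HH_sq {i j : Fin n} (hij : i ≠ j) (x : ℝ) (y : K) :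
    RCLike.re (HH i j x y * HH i j x y).trace = 2 * x ^ 2 + 2 * ‖y‖ ^ 2 := by
  have e : ∀ a b, HH i j x y a b = (Matrix.single i i (x : K)) a b - (Matrix.single j j (x : K)) a b +
      (Matrix.single i j y) a b + (Matrix.single j i (star y)) a b := fun a b => rfl
  rw [HH_mul_trace, e, e, e, e]
  simp only [Matrix.single_apply, hij, hij.symm, and_self, and_false, false_and,
    if_true, if_false, sub_zero, zero_sub, add_zero, zero_add]
  simp only [map_add]
  have h1 : RCLike.re ((x : K) * ((x : K) - -(x : K))) = 2 * x ^ 2 := by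
    rw [RCLike.re_ofReal_mul]; simp; ring
  have h2 : RCLike.re (y * star y) = ‖y‖ ^ 2 := by rw [mul_comm, norm_sq_star_mul]
  rw [h1, h2, norm_sq_star_mul]; ring

lemma St_perturb {i j : Fin n} (hij : i ≠ j) {p : Fin n → ℝ} (hp : (diagonal fun i => (p i : K)) ∈ St K n)
    (x : ℝ) (y : K) {s : ℝ} (h1 : |s| * (|x| + ‖y‖) ≤ p i) (h2 : |s| * (|x| + ‖y‖) ≤ p j)
    (h3 : |s| * (|x| + ‖y‖) ≤ 1 - p i) (h4 : |s| * (|x| + ‖y‖) ≤ 1 - p j)
    (h0 : ∀ i, 0 ≤ p i) (h01 : ∀ i, p i ≤ 1) :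
    (diagonal fun i => (p i : K)) + (s : K) • HH i j x y ∈ St K n := by
  obtain ⟨e1, e2, e3, e4⟩ := hp
  have hsub : ({i, j} : Finset (Fin n)) ⊆ Finset.univ := Finset.subset_univ _
  have key : ∀ q : Fin n → ℝ, (∀ k, 0 ≤ q k) → ∀ v : Fin n → K,
      q i * ‖v i‖ ^ 2 + q j * ‖v j‖ ^ 2 ≤ ∑ k, q k * ‖v k‖ ^ 2 := by
    intro q hq v
    rw [← Finset.sum_pair (f := fun k => q k * ‖v k‖ ^ 2) hij]
    exact Finset.sum_le_sum_of_subset_of_nonneg hsub fun k _ _ => mul_nonneg (hq k) (by positivity)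
  have habs : ∀ v : Fin n → K, |s * qf (HH i j x y) v| ≤
      |s| * (|x| + ‖y‖) * (‖v i‖ ^ 2 + ‖v j‖ ^ 2) := by
    intro v
    rw [abs_mul, mul_assoc]
    exact mul_le_mul_of_nonneg_left (HH_qf_abs i j x y v) (abs_nonneg s)
  refine ⟨?_, ?_, ?_, ?_⟩
  · rw [conjTranspose_add, e1, conjTranspose_smul, HH_herm]; simp
  · intro v
    rw [qf_add, qf_smul, qf_diagonal]
    have a1 := key p h0 v
    have a2 := (abs_le.1 (habs v)).1
    nlinarith [sq_nonneg ‖v i‖, sq_nonneg ‖v j‖]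
  · intro v
    rw [qf_add, qf_smul, qf_diagonal, qf_one]
    have a1 := key (fun k => 1 - p k) (fun k => sub_nonneg.2 (h01 k)) v
    have a2 := (abs_le.1 (habs v)).2
    have a3 : ∑ k, (1 - p k) * ‖v k‖ ^ 2 = ∑ k, ‖v k‖ ^ 2 - ∑ k, p k * ‖v k‖ ^ 2 := by
      rw [← Finset.sum_sub_distrib]
      exact Finset.sum_congr rfl fun k _ => by ring
    simp only [a3] at a1
    nlinarith [sq_nonneg ‖v i‖, sq_nonneg ‖v j‖]
  · rw [trace_add, e4, trace_smul, HH_trace hij]; simp

lemma psi_perturb {X ρ H : Matrix (Fin n) (Fin n) K} (hH : (H * X).trace = 0) (s : ℝ) :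
    psi X (ρ + (s : K) • H) = psi X ρ + s * RCLike.re (H * (X * Xᴴ + Xᴴ * X)).trace := by
  have h1 : ((ρ + (s : K) • H) * X).trace = (ρ * X).trace := by
    rw [add_mul, trace_add, smul_mul_assoc, trace_smul, hH, smul_zero, add_zero]
  rw [psi, h1, psi, add_mul, trace_add, smul_mul_assoc, trace_smul, map_add, smul_eq_mul,
    RCLike.re_ofReal_mul]
  ring

lemma tau_perturb (ρ H : Matrix (Fin n) (Fin n) K) (s : ℝ) :
    tau (ρ + (s : K) • H) = tau ρ + 2 * s * RCLike.re (ρ * H).trace +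
      s ^ 2 * RCLike.re (H * H).trace := by
  have h1 : (ρ + (s : K) • H) * (ρ + (s : K) • H) =
      ρ * ρ + (s : K) • (ρ * H) + (s : K) • (H * ρ) + (s : K) • ((s : K) • (H * H)) := by
    rw [add_mul, mul_add, mul_add, mul_smul_comm, smul_mul_assoc, smul_mul_assoc, mul_smul_comm]
    abel
  rw [tau, h1, trace_add, trace_add, trace_add, trace_smul, trace_smul, trace_smul, trace_smul,
    trace_mul_comm H ρ, tau]
  simp only [map_add, smul_eq_mul, RCLike.re_ofReal_mul]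
  ring

/-- the linear condition `tr (H X) = 0` has a nonzero solution -/
lemma exists_xy (a b c : K) : ∃ (x : ℝ) (y : K), (x ≠ 0 ∨ y ≠ 0) ∧ x * a + y * b + star y * c = 0 := by
  let L : (ℝ × K) →ₗ[ℝ] K :=
    { toFun := fun w => (w.1 : K) * a + w.2 * b + star w.2 * c
      map_add' := by
        intro u v
        simp only [Prod.fst_add, Prod.snd_add, RCLike.ofReal_add, star_add]; ring
      map_smul' := by
        intro r u
        simp only [Prod.smul_fst, Prod.smul_snd, smul_eq_mul, RCLike.ofReal_mul, RingHom.id_apply,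
          RCLike.real_smul_eq_coe_mul, star_mul', RCLike.star_def, RCLike.conj_ofReal]
        ring }
  have hf : Module.finrank ℝ K < Module.finrank ℝ (ℝ × K) := by
    rw [Module.finrank_prod, Module.finrank_self]; omega
  have := LinearMap.ker_ne_bot_of_finrank_lt (f := L) hf
  obtain ⟨w, hw, hw0⟩ := (Submodule.ne_bot_iff _).1 this
  refine ⟨w.1, w.2, ?_, hw⟩
  by_contra h
  push Not at h
  exact hw0 (Prod.ext h.1 h.2)

lemma LexMax.not_frac {X : Matrix (Fin n) (Fin n) K} {p : Fin n → ℝ}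
    (h : LexMax X (diagonal fun i => (p i : K))) (h0 : ∀ i, 0 ≤ p i) (h01 : ∀ i, p i ≤ 1)
    {i j : Fin n} (hij : i ≠ j) (hi0 : 0 < p i) (hi1 : p i < 1) (hj0 : 0 < p j) (hj1 : p j < 1) :
    False := by
  obtain ⟨x, y, hxy, hL⟩ := exists_xy (X i i - X j j) (X j i) (X i j)
  have hHX : (HH i j x y * X).trace = 0 := by rw [HH_mul_trace]; exact hL
  set c := |x| + ‖y‖ with hc
  have hc0 : 0 ≤ c := by positivity
  set m := min (min (p i) (p j)) (min (1 - p i) (1 - p j)) with hm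
  have hm0 : 0 < m := lt_min (lt_min hi0 hj0) (lt_min (by linarith) (by linarith))
  set ε := m / (1 + c) with hε
  have hε0 : 0 < ε := by positivity
  have hεc : ε * c ≤ m := by
    rw [hε, div_mul_eq_mul_div, div_le_iff₀ (by positivity)]
    nlinarith
  have m1 : m ≤ p i := (min_le_left _ _).trans (min_le_left _ _)
  have m2 : m ≤ p j := (min_le_left _ _).trans (min_le_right _ _)
  have m3 : m ≤ 1 - p i := (min_le_right _ _).trans (min_le_left _ _)
  have m4 : m ≤ 1 - p j := (min_le_right _ _).trans (min_le_right _ _)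
  have hmem : ∀ s : ℝ, |s| = ε → (diagonal fun i => (p i : K)) + (s : K) • HH i j x y ∈ St K n := by
    intro s hs
    refine St_perturb hij h.mem x y ?_ ?_ ?_ ?_ h0 h01 <;> rw [hs] <;> linarith
  have hp := hmem ε (abs_of_pos hε0)
  have hn := hmem (-ε) (by rw [abs_neg, abs_of_pos hε0])
  have q1 := h.max _ hp
  have q2 := h.max _ hn
  rw [psi_perturb hHX] at q1 q2
  have hz : RCLike.re (HH i j x y * (X * Xᴴ + Xᴴ * X)).trace = 0 := by nlinarith
  have t1 := h.lex _ hp (by rw [psi_perturb hHX, hz]; ring)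
  have t2 := h.lex _ hn (by rw [psi_perturb hHX, hz]; ring)
  rw [tau_perturb, HH_sq hij] at t1 t2
  have : ε ^ 2 * (2 * x ^ 2 + 2 * ‖y‖ ^ 2) ≤ 0 := by nlinarith
  have h5 : 0 < 2 * x ^ 2 + 2 * ‖y‖ ^ 2 := by
    rcases hxy with hx | hy
    · positivity
    · positivity
  have : 0 < ε ^ 2 * (2 * x ^ 2 + 2 * ‖y‖ ^ 2) := by positivity
  linarith

end Pool.Agent.Helper71.LW
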