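import Pool.Agent.Helper71.LW.Choice3

/-!
# Lu-Wenzel, part A.4: first order conditions
-/

set_option autoImplicit false

namespace Pool.Agent.Helper71.LW

open Matrix

variable {K : Type} [RCLike K] {n : ℕ}

lemma St_diag_facts {p : Fin n → ℝ} (h : (diagonal fun i => (p i : K)) ∈ St K n) :
    (∀ i, 0 ≤ p i) ∧ (∀ i, p i ≤ 1) ∧ ∑ i, p i = 2 := by
  obtain ⟨-, h2, h3, h4⟩ := h
  have e : ∀ (q : Fin n → ℝ) i, ∑ k, q k * ‖(Pi.single i 1 : Fin n → K) k‖ ^ 2 = q i := by
    intro q i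
    rw [Finset.sum_eq_single i]
    · simp
    · intro b _ hb; simp [hb]
    · simp
  refine ⟨fun i => ?_, fun i => ?_, ?_⟩
  · have := h2 (Pi.single i 1)
    rwa [qf_diagonal, e] at this
  · have := h3 (Pi.single i 1)
    rw [qf_diagonal, e, qf_one] at this
    have e1 := e (fun _ => 1) i
    simp only [one_mul] at e1
    rwa [e1] at this
  · rw [trace_diagonal] at h4
    have : ((∑ i, p i : ℝ) : K) = ((2 : ℝ) : K) := by
      rw [RCLike.ofReal_sum, h4]; exact (RCLike.ofReal_ofNat 2).symm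
    exact RCLike.ofReal_injective this

lemma LexMax.zero_one {X : Matrix (Fin n) (Fin n) K} {p : Fin n → ℝ}
    (h : LexMax X (diagonal fun i => (p i : K))) : ∀ i, p i = 0 ∨ p i = 1 := by
  obtain ⟨h0, h1, h2⟩ := St_diag_facts h.mem
  by_contra hcon
  push Not at hcon
  obtain ⟨i, hi0, hi1⟩ := hcon
  have hi0' : 0 < p i := lt_of_le_of_ne (h0 i) (Ne.symm hi0)
  have hi1' : p i < 1 := lt_of_le_of_ne (h1 i) hi1
  have hoth : ∀ j, j ≠ i → p j = 0 ∨ p j = 1 := by
    intro j hj
    by_contra hc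
    push Not at hc
    exact h.not_frac h0 h1 hj (lt_of_le_of_ne (h0 j) (Ne.symm hc.1)) (lt_of_le_of_ne (h1 j) hc.2)
      hi0' hi1'
  have hsum : ∑ j ∈ Finset.univ.erase i, p j =
      ((Finset.univ.erase i).filter fun j => p j = 1).card := by
    rw [Finset.card_eq_sum_ones, Finset.sum_filter]
    push_cast
    refine Finset.sum_congr rfl fun j hj => ?_
    rcases hoth j (Finset.ne_of_mem_erase hj) with h | h <;> simp [h]
  rw [← Finset.add_sum_erase _ _ (Finset.mem_univ i), hsum] at h2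
  set m := ((Finset.univ.erase i).filter fun j => p j = 1).card
  have a1 : (m : ℝ) < 2 := by linarith
  have a2 : (1 : ℝ) < m := by linarith
  have b1 : m < 2 := by exact_mod_cast a1
  have b2 : 1 < m := by exact_mod_cast a2
  omega

lemma exists_pair {p : Fin n → ℝ} (h01 : ∀ i, p i = 0 ∨ p i = 1) (hs : ∑ i, p i = 2) :
    ∃ i0 i1 : Fin n, i0 ≠ i1 ∧ p i0 = 1 ∧ p i1 = 1 ∧ ∀ j, j ≠ i0 → j ≠ i1 → p j = 0 := by
  have hc : ((Finset.univ.filter fun j => p j = 1).card : ℝ) = 2 := by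
    rw [← hs, Finset.card_eq_sum_ones, Finset.sum_filter]
    push_cast
    refine Finset.sum_congr rfl fun j _ => ?_
    rcases h01 j with h | h <;> simp [h]
  have hc' : (Finset.univ.filter fun j => p j = 1).card = 2 := by exact_mod_cast hc
  obtain ⟨a, b, hab, he⟩ := Finset.card_eq_two.1 hc'
  have mem : ∀ j, p j = 1 ↔ j = a ∨ j = b := by
    intro j
    have : j ∈ (Finset.univ.filter fun j => p j = 1) ↔ j ∈ ({a, b} : Finset (Fin n)) := by rw [he]
    simpa using this
  refine ⟨a, b, hab, (mem a).2 (Or.inl rfl), (mem b).2 (Or.inr rfl), fun j h1 h2 => ?_⟩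
  rcases h01 j with h | h
  · exact h
  · rcases (mem j).1 h with h | h
    · exact absurd h h1
    · exact absurd h h2

lemma St_convex {ρ σ : Matrix (Fin n) (Fin n) K} (hρ : ρ ∈ St K n) (hσ : σ ∈ St K n) {t : ℝ}
    (h0 : 0 ≤ t) (h1 : t ≤ 1) : ρ + (t : K) • (σ - ρ) ∈ St K n := by
  obtain ⟨a1, a2, a3, a4⟩ := hρ
  obtain ⟨b1, b2, b3, b4⟩ := hσ
  refine ⟨?_, ?_, ?_, ?_⟩
  · rw [conjTranspose_add, conjTranspose_smul, conjTranspose_sub, a1, b1]; simp
  · intro v; rw [qf_add, qf_smul, qf_sub]; nlinarith [a2 v, b2 v]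
  · intro v; rw [qf_add, qf_smul, qf_sub]; nlinarith [a3 v, b3 v]
  · rw [trace_add, trace_smul, trace_sub, a4, b4]; simp

lemma re_two_mul (a : K) : RCLike.re (2 * a) = 2 * RCLike.re a := by
  have : (2 : K) = ((2 : ℝ) : K) := (RCLike.ofReal_ofNat 2).symm
  rw [this, RCLike.re_ofReal_mul]

lemma re_four_mul (a : K) : RCLike.re (4 * a) = 4 * RCLike.re a := by
  have : (4 : K) = ((4 : ℝ) : K) := (RCLike.ofReal_ofNat 4).symm
  rw [this, RCLike.re_ofReal_mul]

lemma gg_shift (X : Matrix (Fin n) (Fin n) K) (z : K) :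
    (X - z • (1 : Matrix (Fin n) (Fin n) K)) * (X - z • (1 : Matrix (Fin n) (Fin n) K))ᴴ +
      (X - z • (1 : Matrix (Fin n) (Fin n) K))ᴴ * (X - z • (1 : Matrix (Fin n) (Fin n) K)) =
    (X * Xᴴ + Xᴴ * X) - (2 * star z) • X - (2 * z) • Xᴴ + (2 * (z * star z)) • 1 := by
  rw [conjTranspose_sub, conjTranspose_smul, conjTranspose_one]
  simp only [sub_mul, mul_sub, smul_mul_assoc, mul_smul_comm, mul_one, one_mul, smul_sub, smul_smul]
  ext i j
  simp only [Matrix.add_apply, Matrix.sub_apply, Matrix.smul_apply, smul_eq_mul]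
  ring

lemma psi_shift {σ : Matrix (Fin n) (Fin n) K} (hσ : σ ∈ St K n) (X : Matrix (Fin n) (Fin n) K)
    (z : K) : psi (X - z • (1 : Matrix (Fin n) (Fin n) K)) σ = psi X σ := by
  obtain ⟨h1, -, -, h4⟩ := hσ
  have e1 : (σ * (X - z • (1 : Matrix (Fin n) (Fin n) K))).trace = (σ * X).trace - 2 * z := by
    rw [mul_sub, trace_sub, mul_smul_comm, mul_one, trace_smul, h4, smul_eq_mul]; ring
  have e2 : (σ * Xᴴ).trace = star (σ * X).trace := by
    rw [← trace_conjTranspose, conjTranspose_mul, h1, trace_mul_comm]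
  have e3 : (σ * ((X * Xᴴ + Xᴴ * X) - (2 * star z) • X - (2 * z) • Xᴴ +
      (2 * (z * star z)) • 1)).trace = (σ * (X * Xᴴ + Xᴴ * X)).trace -
      (2 * star z) * (σ * X).trace - (2 * z) * star (σ * X).trace + 4 * (z * star z) := by
    rw [mul_add, mul_sub, mul_sub, trace_add, trace_sub, trace_sub, mul_smul_comm, mul_smul_comm,
      mul_smul_comm, mul_one, trace_smul, trace_smul, trace_smul, h4, e2]
    simp only [smul_eq_mul]
    ring
  rw [psi, gg_shift, e1, e3, psi]
  set T := (σ * X).trace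
  have e4 : ‖T - 2 * z‖ ^ 2 = ‖T‖ ^ 2 - 4 * RCLike.re (star z * T) + 4 * ‖z‖ ^ 2 := by
    rw [← norm_sq_star_mul, ← norm_sq_star_mul T, ← norm_sq_star_mul z]
    have : star (T - 2 * z) * (T - 2 * z) = star T * T - 2 * (star z * T) - 2 * (star T * z) +
        4 * (star z * z) := by
      rw [star_sub, star_mul, star_ofNat]; ring
    rw [this]
    have h5 : RCLike.re (star T * z) = RCLike.re (star z * T) := by
      have : star (star z * T) = star T * z := by rw [star_mul, star_star]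
      rw [← this, RCLike.star_def, RCLike.conj_re]
    simp only [map_add, map_sub, re_two_mul, re_four_mul, h5]
    ring
  have e5 : RCLike.re ((2 * star z) * T) = 2 * RCLike.re (star z * T) := by
    rw [mul_assoc, re_two_mul]
  have e6 : RCLike.re ((2 * z) * star T) = 2 * RCLike.re (star z * T) := by
    have : star (star z * T) = z * star T := by rw [star_mul, star_star, mul_comm]
    rw [mul_assoc, re_two_mul, ← this, RCLike.star_def, RCLike.conj_re]
  have e7 : RCLike.re (4 * (z * star z)) = 4 * ‖z‖ ^ 2 := by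
    rw [re_four_mul, mul_comm z, norm_sq_star_mul]
  simp only [map_add, map_sub]
  rw [e4, e5, e6, e7]
  ring

/-- first order condition -/
lemma first_order {Y ρ : Matrix (Fin n) (Fin n) K} (hρ : ρ ∈ St K n)
    (hmax : ∀ σ ∈ St K n, psi Y σ ≤ psi Y ρ) (h0 : (ρ * Y).trace = 0)
    {σ : Matrix (Fin n) (Fin n) K} (hσ : σ ∈ St K n) :
    RCLike.re (σ * (Y * Yᴴ + Yᴴ * Y)).trace ≤ RCLike.re (ρ * (Y * Yᴴ + Yᴴ * Y)).trace := by
  set G := Y * Yᴴ + Yᴴ * Y with hG
  set D := RCLike.re ((σ - ρ) * G).trace with hD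
  set B := ‖((σ - ρ) * Y).trace‖ ^ 2 with hB
  have hB0 : 0 ≤ B := by positivity
  have key : ∀ t : ℝ, 0 < t → t ≤ 1 → D ≤ t * B := by
    intro t ht ht1
    have := hmax _ (St_convex hρ hσ ht.le ht1)
    rw [psi, psi, h0, ← hG, add_mul, trace_add, smul_mul_assoc, trace_smul, add_mul, trace_add,
      smul_mul_assoc, trace_smul, h0, zero_add, map_add, smul_eq_mul, smul_eq_mul,
      RCLike.re_ofReal_mul, norm_mul, RCLike.norm_ofReal, abs_of_pos ht, ← hD, mul_pow, ← hB] at this
    simp only [norm_zero] at this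
    have h2 : t * D ≤ t * (t * B) := by nlinarith
    exact le_of_mul_le_mul_left h2 ht
  have hD0 : D ≤ 0 := by
    by_contra hpos
    push Not at hpos
    have h1 := key (min 1 (D / (2 * (B + 1)))) (lt_min one_pos (by positivity)) (min_le_left _ _)
    have h2 : min 1 (D / (2 * (B + 1))) * B ≤ D / (2 * (B + 1)) * B :=
      mul_le_mul_of_nonneg_right (min_le_right _ _) hB0
    have h3 : D / (2 * (B + 1)) * B ≤ D / 2 := by
      rw [div_mul_eq_mul_div, div_le_div_iff₀ (by positivity) (by positivity)]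
      nlinarith
    linarith
  have : D = RCLike.re (σ * G).trace - RCLike.re (ρ * G).trace := by
    rw [hD, sub_mul, trace_sub, map_sub]
  linarith

end Pool.Agent.Helper71.LW
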