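import Pool.Agent.Helper71.LW.Choice4

/-!
# Lu-Wenzel, part A.5: the canonical form
-/

set_option autoImplicit false

namespace Pool.Agent.Helper71.LW

open Matrix

variable {K : Type} [RCLike K] {n : ℕ}

lemma St_rot {i j : Fin n} (hij : i ≠ j) {p : Fin n → ℝ}
    (hp : (diagonal fun i => (p i : K)) ∈ St K n)
    (h0 : ∀ i, 0 ≤ p i) (h1 : ∀ i, p i ≤ 1) (hi : p i = 1) (hj : p j = 0) {c s : ℝ}
    (hcs : c ^ 2 + s ^ 2 = 1) {ω : K} (hω : ‖ω‖ = 1) :
    (diagonal fun i => (p i : K)) + HH i j (-s ^ 2) (((c * s : ℝ) : K) * ω) ∈ St K n := by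
  obtain ⟨e1, e2, e3, e4⟩ := hp
  have key : ∀ q : Fin n → ℝ, (∀ k, 0 ≤ q k) → ∀ v : Fin n → K,
      q i * ‖v i‖ ^ 2 + q j * ‖v j‖ ^ 2 ≤ ∑ k, q k * ‖v k‖ ^ 2 := by
    intro q hq v
    rw [← Finset.sum_pair (f := fun k => q k * ‖v k‖ ^ 2) hij]
    exact Finset.sum_le_sum_of_subset_of_nonneg (Finset.subset_univ _)
      fun k _ _ => mul_nonneg (hq k) (by positivity)
  have hcross : ∀ v : Fin n → K, |RCLike.re (star (v i) * (((c * s : ℝ) : K) * ω) * v j)| ≤
      |c| * |s| * (‖v i‖ * ‖v j‖) := by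
    intro v
    refine (RCLike.abs_re_le_norm _).trans (le_of_eq ?_)
    rw [norm_mul, norm_mul, norm_mul, norm_star, hω, RCLike.norm_ofReal, abs_mul]; ring
  have hc : c ^ 2 = 1 - s ^ 2 := by linarith
  refine ⟨?_, ?_, ?_, ?_⟩
  · rw [conjTranspose_add, e1, HH_herm]
  · intro v
    rw [qf_add, qf_diagonal, HH_qf]
    have a1 := key p h0 v
    rw [hi, hj] at a1
    have a2 := (abs_le.1 (hcross v)).1
    have a3 : 0 ≤ (|c| * ‖v i‖ - |s| * ‖v j‖) ^ 2 := sq_nonneg _
    have a4 : (|c| * ‖v i‖ - |s| * ‖v j‖) ^ 2 = c ^ 2 * ‖v i‖ ^ 2 + s ^ 2 * ‖v j‖ ^ 2 -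
        2 * (|c| * |s| * (‖v i‖ * ‖v j‖)) := by
      rw [← sq_abs c, ← sq_abs s]; ring
    rw [a4, hc] at a3
    linarith
  · intro v
    rw [qf_add, qf_diagonal, qf_one, HH_qf]
    have a1 := key (fun k => 1 - p k) (fun k => sub_nonneg.2 (h1 k)) v
    have a5 : ∑ k, (1 - p k) * ‖v k‖ ^ 2 = ∑ k, ‖v k‖ ^ 2 - ∑ k, p k * ‖v k‖ ^ 2 := by
      rw [← Finset.sum_sub_distrib]
      exact Finset.sum_congr rfl fun k _ => by ring
    simp only [a5, hi, hj] at a1
    have a2 := (abs_le.1 (hcross v)).2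
    have a3 : 0 ≤ (|s| * ‖v i‖ - |c| * ‖v j‖) ^ 2 := sq_nonneg _
    have a4 : (|s| * ‖v i‖ - |c| * ‖v j‖) ^ 2 = s ^ 2 * ‖v i‖ ^ 2 + c ^ 2 * ‖v j‖ ^ 2 -
        2 * (|c| * |s| * (‖v i‖ * ‖v j‖)) := by
      rw [← sq_abs c, ← sq_abs s]; ring
    rw [a4, hc] at a3
    linarith
  · rw [trace_add, e4, HH_trace hij]; simp

/-- the hypotheses on `Y`: `diagonal p` is a maximiser and `tr (diagonal p * Y) = 0` -/
structure Opt (Y : Matrix (Fin n) (Fin n) K) (p : Fin n → ℝ) : Prop where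
  mem : (diagonal fun i => (p i : K)) ∈ St K n
  max : ∀ σ ∈ St K n, psi Y σ ≤ psi Y (diagonal fun i => (p i : K))
  tr : ((diagonal fun i => (p i : K)) * Y).trace = 0

lemma gg_herm (Y : Matrix (Fin n) (Fin n) K) : (Y * Yᴴ + Yᴴ * Y)ᴴ = Y * Yᴴ + Yᴴ * Y := by
  rw [conjTranspose_add, conjTranspose_mul, conjTranspose_mul, conjTranspose_conjTranspose]

/-- first order condition for rotations -/
lemma Opt.rot {Y : Matrix (Fin n) (Fin n) K} {p : Fin n → ℝ} (h : Opt Y p) {i j : Fin n}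
    (hij : i ≠ j) (hi : p i = 1) (hj : p j = 0) {c s : ℝ} (hcs : c ^ 2 + s ^ 2 = 1) {ω : K}
    (hω : ‖ω‖ = 1) :
    2 * (c * s) * RCLike.re (ω * (Y * Yᴴ + Yᴴ * Y) j i) ≤
      s ^ 2 * (RCLike.re ((Y * Yᴴ + Yᴴ * Y) i i) - RCLike.re ((Y * Yᴴ + Yᴴ * Y) j j)) := by
  obtain ⟨h0, h1, h2⟩ := St_diag_facts h.mem
  have := first_order h.mem h.max h.tr (St_rot hij h.mem h0 h1 hi hj hcs hω)
  have hG := gg_herm Y
  set G := Y * Yᴴ + Yᴴ * Y
  rw [add_mul, trace_add, HH_mul_trace, map_add] at this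
  have e1 : G i j = star (G j i) := by
    conv_lhs => rw [← hG]
    rfl
  have e2 : RCLike.re (star (((c * s : ℝ) : K) * ω) * G i j) =
      RCLike.re ((((c * s : ℝ) : K) * ω) * G j i) := by
    have : star ((((c * s : ℝ) : K) * ω) * G j i) = star (((c * s : ℝ) : K) * ω) * G i j := by
      rw [e1, star_mul, mul_comm]
    rw [← this, RCLike.star_def, RCLike.conj_re]
  have e3 : RCLike.re ((((c * s : ℝ) : K) * ω) * G j i) = (c * s) * RCLike.re (ω * G j i) := by
    rw [mul_assoc, RCLike.re_ofReal_mul]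
  have e4 : RCLike.re (((-s ^ 2 : ℝ) : K) * (G i i - G j j)) =
      -s ^ 2 * (RCLike.re (G i i) - RCLike.re (G j j)) := by
    rw [RCLike.re_ofReal_mul, map_sub]
  rw [map_add, map_add, e2, e3, e4] at this
  linarith

lemma Opt.cross {Y : Matrix (Fin n) (Fin n) K} {p : Fin n → ℝ} (h : Opt Y p) {i j : Fin n}
    (hi : p i = 1) (hj : p j = 0) : (Y * Yᴴ + Yᴴ * Y) j i = 0 := by
  have hij : i ≠ j := by rintro rfl; rw [hi] at hj; exact one_ne_zero hj
  by_contra hne
  set G := Y * Yᴴ + Yᴴ * Y with hG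
  set a := ‖G j i‖ with ha
  have ha0 : 0 < a := norm_pos_iff.2 hne
  have hn : ((a : ℝ) : K) ≠ 0 := by
    simpa using ha0.ne'
  set ω : K := star (G j i) / ((a : ℝ) : K) with hω
  have hωn : ‖ω‖ = 1 := by
    rw [hω, norm_div, norm_star, RCLike.norm_ofReal, abs_of_pos ha0, ← ha, div_self ha0.ne']
  have hprod : RCLike.re (ω * G j i) = a := by
    have : ω * G j i = ((a : ℝ) : K) := by
      rw [hω, div_mul_eq_mul_div, RCLike.star_def, RCLike.conj_mul, ← ha]
      field_simp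
    rw [this, RCLike.ofReal_re]
  set D := RCLike.re (G i i) - RCLike.re (G j j) with hD
  have key : ∀ t : ℝ, 0 < t → t < 1 → (1 - t ^ 2) * a ≤ t * D := by
    intro t ht ht1
    have h1 : (0 : ℝ) < 1 + t ^ 2 := by positivity
    have hcs : ((1 - t ^ 2) / (1 + t ^ 2)) ^ 2 + (2 * t / (1 + t ^ 2)) ^ 2 = 1 := by
      field_simp; ring
    have := h.rot hij hi hj hcs hωn
    rw [← hG, hprod, ← hD] at this
    have e : 2 * ((1 - t ^ 2) / (1 + t ^ 2) * (2 * t / (1 + t ^ 2))) * a =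
        (4 * t / (1 + t ^ 2) ^ 2) * ((1 - t ^ 2) * a) := by
      field_simp; ring
    have e' : (2 * t / (1 + t ^ 2)) ^ 2 * D = (4 * t / (1 + t ^ 2) ^ 2) * (t * D) := by
      field_simp; ring
    rw [e, e'] at this
    exact le_of_mul_le_mul_left this (by positivity)
  have hD0 : 0 < D := by
    have := key (1 / 2) (by norm_num) (by norm_num)
    nlinarith
  have := key (min (1 / 2) (a / (2 * D))) (lt_min (by norm_num) (by positivity))
    (lt_of_le_of_lt (min_le_left _ _) (by norm_num))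
  set t := min (1 / 2) (a / (2 * D)) with ht
  have t1 : t ≤ 1 / 2 := min_le_left _ _
  have t0 : 0 < t := lt_min (by norm_num) (by positivity)
  have t2 : t * D ≤ a / 2 := by
    have : t * D ≤ a / (2 * D) * D := mul_le_mul_of_nonneg_right (min_le_right _ _) hD0.le
    have e : a / (2 * D) * D = a / 2 := by field_simp
    rwa [e] at this
  have t3 : t ^ 2 ≤ 1 / 4 := by nlinarith
  nlinarith

lemma Opt.order {Y : Matrix (Fin n) (Fin n) K} {p : Fin n → ℝ} (h : Opt Y p) {i j : Fin n}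
    (hi : p i = 1) (hj : p j = 0) :
    RCLike.re ((Y * Yᴴ + Yᴴ * Y) j j) ≤ RCLike.re ((Y * Yᴴ + Yᴴ * Y) i i) := by
  have hij : i ≠ j := by rintro rfl; rw [hi] at hj; exact one_ne_zero hj
  have := h.rot hij hi hj (c := 0) (s := 1) (by norm_num) (ω := 1) (by simp)
  linarith

/-- an eigenvalue is at most the sum of the norms of the entries -/
lemma eig_le {G : Matrix (Fin n) (Fin n) K} {v : Fin n → K} {r : ℝ} (h : G *ᵥ v = (r : K) • v)
    (hv : v ≠ 0) : |r| ≤ ∑ i, ∑ j, ‖G i j‖ := by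
  have h1 : ∀ i, |r| * ‖v i‖ ≤ ∑ j, ‖G i j‖ * ‖v j‖ := by
    intro i
    have := congrFun h i
    rw [mulVec, dotProduct, Pi.smul_apply, smul_eq_mul] at this
    calc |r| * ‖v i‖ = ‖(r : K) * v i‖ := by rw [norm_mul, RCLike.norm_ofReal]
      _ = ‖∑ j, G i j * v j‖ := by rw [this]
      _ ≤ ∑ j, ‖G i j * v j‖ := norm_sum_le _ _
      _ = _ := Finset.sum_congr rfl fun j _ => norm_mul _ _
  have h2 : 0 < ∑ j, ‖v j‖ := by
    obtain ⟨j, hj⟩ := Function.ne_iff.1 hv
    exact Finset.sum_pos' (fun i _ => norm_nonneg _) ⟨j, Finset.mem_univ _, norm_pos_iff.2 hj⟩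
  have h3 : |r| * ∑ i, ‖v i‖ ≤ (∑ i, ∑ j, ‖G i j‖) * ∑ j, ‖v j‖ := by
    rw [Finset.mul_sum, Finset.sum_mul]
    refine Finset.sum_le_sum fun i _ => (h1 i).trans ?_
    rw [Finset.sum_mul]
    refine Finset.sum_le_sum fun j _ => mul_le_mul_of_nonneg_left ?_ (norm_nonneg _)
    exact Finset.single_le_sum (f := fun j => ‖v j‖) (fun i _ => norm_nonneg _) (Finset.mem_univ j)
  exact le_of_mul_le_mul_right h3 h2

/-- simultaneous diagonalisation -/
lemma exists_simdiag {G : Matrix (Fin n) (Fin n) K} (hG : Gᴴ = G) {p : Fin n → ℝ}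
    (h01 : ∀ i, p i = 0 ∨ p i = 1) (hcr : ∀ i j, p i = 1 → p j = 0 → G j i = 0) :
    ∃ (V : Matrix (Fin n) (Fin n) K) (p' g : Fin n → ℝ), V * Vᴴ = 1 ∧ Vᴴ * V = 1 ∧
      Vᴴ * (diagonal fun i => (p i : K)) * V = (diagonal fun i => (p' i : K)) ∧
      Vᴴ * G * V = (diagonal fun i => (g i : K)) := by
  set P : Matrix (Fin n) (Fin n) K := diagonal fun i => (p i : K) with hP
  set C := ∑ i, ∑ j, ‖G i j‖ with hC
  have hC0 : 0 ≤ C := Finset.sum_nonneg fun i _ => Finset.sum_nonneg fun j _ => norm_nonneg _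
  set c : ℝ := 2 * C + 1 with hc
  have hPP : P * P = P := by
    rw [hP, diagonal_mul_diagonal]
    congr 1; ext i
    rcases h01 i with h | h <;> simp [h]
  have hPh : Pᴴ = P := by
    rw [hP, diagonal_conjTranspose]
    congr 1; ext i; simp
  have hcr' : ∀ i j, p i = 1 → p j = 0 → G i j = 0 := by
    intro i j hi hj
    have : G i j = star (G j i) := by
      conv_lhs => rw [← hG]
      rfl
    rw [this, hcr i j hi hj, star_zero]
  have hcomm : P * G = G * P := by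
    ext i j
    rw [hP, diagonal_mul, mul_diagonal]
    rcases h01 i with hi | hi <;> rcases h01 j with hj | hj
    · simp [hi, hj]
    · rw [hcr j i hj hi]; simp
    · rw [hcr' i j hi hj]; simp
    · simp [hi, hj]
  obtain ⟨V, μ, hV1, hV2, hV3⟩ := exists_diag (G + (c : K) • P) (by
    rw [conjTranspose_add, conjTranspose_smul, hG, hPh]; simp)
  have hMV : (G + (c : K) • P) * V = V * diagonal fun i => (μ i : K) := by
    rw [← hV3, ← Matrix.mul_assoc, ← Matrix.mul_assoc, hV1, Matrix.one_mul]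
  -- columns
  have hcol : ∀ a, ∃ q : ℝ, P *ᵥ (V.col a) = (q : K) • V.col a := by
    intro a
    set v := V.col a with hv
    have hMv : (G + (c : K) • P) *ᵥ v = (μ a : K) • v := by
      have := congrArg (fun M : Matrix (Fin n) (Fin n) K => M.col a) hMV
      ext i
      have h2 := congrFun this i
      simp only [Matrix.col_apply, mul_diagonal] at h2
      rw [Pi.smul_apply, smul_eq_mul, hv, Matrix.col_apply, mul_comm, ← h2]
      rfl
    have hMP : (G + (c : K) • P) * P = P * (G + (c : K) • P) := by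
      rw [add_mul, mul_add, hcomm, smul_mul_assoc, mul_smul_comm]
    have h1 : G *ᵥ (P *ᵥ v) = ((μ a - c : ℝ) : K) • (P *ᵥ v) := by
      have e1 : (G + (c : K) • P) *ᵥ (P *ᵥ v) = (μ a : K) • (P *ᵥ v) := by
        rw [mulVec_mulVec, hMP, ← mulVec_mulVec, hMv, mulVec_smul]
      have e2 : (G + (c : K) • P) *ᵥ (P *ᵥ v) = G *ᵥ (P *ᵥ v) + (c : K) • (P *ᵥ v) := by
        rw [add_mulVec, smul_mulVec, mulVec_mulVec v P P, hPP]
      rw [e2] at e1
      rw [RCLike.ofReal_sub, sub_smul, ← e1, add_sub_cancel_right]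
    have h2 : G *ᵥ (v - P *ᵥ v) = (μ a : K) • (v - P *ᵥ v) := by
      have e1 : G *ᵥ v + (c : K) • (P *ᵥ v) = (μ a : K) • v := by
        rw [← hMv, add_mulVec, smul_mulVec]
      rw [mulVec_sub, h1, smul_sub, ← e1, RCLike.ofReal_sub, sub_smul]
      abel
    by_cases hz : P *ᵥ v = 0
    · exact ⟨0, by rw [hz]; simp⟩
    · by_cases hz2 : v - P *ᵥ v = 0
      · exact ⟨1, by rw [sub_eq_zero] at hz2; rw [← hz2]; simp⟩
      · exfalso
        have b1 := (abs_le.1 (eig_le h1 hz)).1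
        have b2 := (abs_le.1 (eig_le h2 hz2)).2
        rw [← hC] at b1 b2
        rw [hc] at b1
        linarith
  choose p' hp' using hcol
  have hPV : P * V = V * diagonal fun i => (p' i : K) := by
    ext i a
    have := congrFun (hp' a) i
    rw [Pi.smul_apply, smul_eq_mul, Matrix.col_apply] at this
    rw [mul_diagonal, mul_comm (V i a), ← this]
    rfl
  have hd : Vᴴ * P * V = diagonal fun i => (p' i : K) := by
    rw [Matrix.mul_assoc, hPV, ← Matrix.mul_assoc, hV2, Matrix.one_mul]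
  refine ⟨V, p', fun i => μ i - c * p' i, hV1, hV2, hd, ?_⟩
  have : Vᴴ * G * V = Vᴴ * (G + (c : K) • P) * V - (c : K) • (Vᴴ * P * V) := by
    rw [mul_add, add_mul, mul_smul_comm, smul_mul_assoc, add_sub_cancel_right]
  rw [this, hV3, hd]
  ext i j
  rw [Matrix.sub_apply, Matrix.smul_apply, smul_eq_mul]
  by_cases hij : i = j
  · subst hij
    simp only [diagonal_apply_eq]
    push_cast; ring
  · simp only [diagonal_apply_ne _ hij]; ring

lemma Opt.conj {Y : Matrix (Fin n) (Fin n) K} {p p' : Fin n → ℝ} (h : Opt Y p)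
    {V : Matrix (Fin n) (Fin n) K} (hV : V * Vᴴ = 1) (hV' : Vᴴ * V = 1)
    (hd : Vᴴ * (diagonal fun i => (p i : K)) * V = (diagonal fun i => (p' i : K))) :
    Opt (Vᴴ * Y * V) p' := by
  refine ⟨?_, ?_, ?_⟩
  · rw [← hd]; exact St_conj hV hV' h.mem
  · intro σ hσ
    have h1 : V * σ * Vᴴ ∈ St K n := by
      have := St_conj (U := Vᴴ) (by rw [conjTranspose_conjTranspose, hV'])
        (by rw [conjTranspose_conjTranspose, hV]) hσ
      rwa [conjTranspose_conjTranspose] at this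
    have h2 : σ = Vᴴ * (V * σ * Vᴴ) * V := by
      have : Vᴴ * (V * σ * Vᴴ) * V = (Vᴴ * V) * σ * (Vᴴ * V) := by simp only [Matrix.mul_assoc]
      rw [this, hV', one_mul, mul_one]
    rw [h2, ← hd, psi_conj hV, psi_conj hV]
    exact h.max _ h1
  · rw [← hd, trace_conj2 hV, h.tr]

lemma exists_opt (hn : 2 ≤ n) (X : Matrix (Fin n) (Fin n) K) :
    ∃ (z : K) (U : Matrix (Fin n) (Fin n) K) (p : Fin n → ℝ), U * Uᴴ = 1 ∧ Uᴴ * U = 1 ∧
      (∀ i, p i = 0 ∨ p i = 1) ∧
      Opt (Uᴴ * X * U - z • (1 : Matrix (Fin n) (Fin n) K)) p := by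
  obtain ⟨ρ, hρ⟩ := exists_lexMax hn X
  obtain ⟨U, p, h1, h2, h3⟩ := exists_diag ρ hρ.mem.1
  have h4 := hρ.conj h1 h2
  rw [h3] at h4
  set X1 := Uᴴ * X * U
  set P : Matrix (Fin n) (Fin n) K := diagonal fun i => (p i : K)
  refine ⟨(P * X1).trace / 2, U, p, h1, h2, h4.zero_one, h4.mem, ?_, ?_⟩
  · intro σ hσ
    rw [psi_shift hσ, psi_shift h4.mem]
    exact h4.max _ hσ
  · rw [mul_sub, trace_sub, mul_smul_comm, mul_one, trace_smul, h4.mem.2.2.2, smul_eq_mul]
    field_simp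
    ring

/-- **Part A.** -/
theorem exists_canon (hn : 2 ≤ n) (X : Matrix (Fin n) (Fin n) K) :
    ∃ (z : K) (U : Matrix (Fin n) (Fin n) K) (g : Fin n → ℝ) (i0 i1 : Fin n),
      U * Uᴴ = 1 ∧ Uᴴ * U = 1 ∧
        Canon (Uᴴ * (X - z • (1 : Matrix (Fin n) (Fin n) K)) * U) g i0 i1 := by
  obtain ⟨z, U, p, hU1, hU2, h01, hopt⟩ := exists_opt hn X
  set Y := Uᴴ * X * U - z • (1 : Matrix (Fin n) (Fin n) K) with hY
  obtain ⟨V, p', g, hV1, hV2, hVp, hVG⟩ := exists_simdiag (gg_herm Y) h01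
    (fun i j hi hj => hopt.cross hi hj)
  have hopt' := hopt.conj hV1 hV2 hVp
  obtain ⟨q0, q1, q2⟩ := St_diag_facts hopt'.mem
  have hpp : ∀ i, p' i = 0 ∨ p' i = 1 := by
    have hPP : (diagonal fun i => (p' i : K)) * (diagonal fun i => (p' i : K)) =
        diagonal fun i => (p' i : K) := by
      have e1 : (diagonal fun i => (p i : K)) * (diagonal fun i => (p i : K)) =
          (diagonal fun i => (p i : K) : Matrix (Fin n) (Fin n) K) := by
        rw [diagonal_mul_diagonal]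
        congr 1; ext i
        rcases h01 i with h | h <;> simp [h]
      rw [← hVp]
      have : ∀ A B : Matrix (Fin n) (Fin n) K, (Vᴴ * A * V) * (Vᴴ * B * V) = Vᴴ * (A * B) * V := by
        intro A B
        have : (Vᴴ * A * V) * (Vᴴ * B * V) = Vᴴ * (A * (V * Vᴴ) * B) * V := by
          simp only [Matrix.mul_assoc]
        rw [this, hV1, mul_one]
      rw [this, e1]
    intro i
    have := congrFun (congrFun hPP i) i
    rw [diagonal_mul_diagonal, diagonal_apply_eq, diagonal_apply_eq] at this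
    have h2 : p' i * p' i = p' i := by exact_mod_cast this
    rcases eq_or_ne (p' i) 0 with h | h
    · exact Or.inl h
    · exact Or.inr (mul_right_cancel₀ h (by rw [h2, one_mul]))
  have hUV : Vᴴ * Y * V = (U * V)ᴴ * (X - z • (1 : Matrix (Fin n) (Fin n) K)) * (U * V) := by
    have e : Y = Uᴴ * (X - z • (1 : Matrix (Fin n) (Fin n) K)) * U := by
      rw [hY, mul_sub, sub_mul, mul_smul_comm, smul_mul_assoc, mul_one, hU2]
    rw [e, conjTranspose_mul]
    simp only [Matrix.mul_assoc]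
  have hGd : (Vᴴ * Y * V) * (Vᴴ * Y * V)ᴴ + (Vᴴ * Y * V)ᴴ * (Vᴴ * Y * V) =
      diagonal fun i => (g i : K) := by rw [conj_gg hV1, hVG]
  have hord : ∀ i j, p' i = 1 → p' j = 0 → g j ≤ g i := by
    intro i j hi hj
    have := hopt'.order hi hj
    rwa [hGd, diagonal_apply_eq, diagonal_apply_eq, RCLike.ofReal_re, RCLike.ofReal_re] at this
  obtain ⟨a, b, hab, ha, hb, hoth⟩ := exists_pair hpp q2
  have htr : (Vᴴ * Y * V) a a + (Vᴴ * Y * V) b b = 0 := by
    have := hopt'.tr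
    rw [Matrix.trace] at this
    simp only [diag_apply, diagonal_mul] at this
    rw [← Finset.sum_subset (Finset.subset_univ ({a, b} : Finset (Fin n))), Finset.sum_pair hab,
      ha, hb] at this
    · simpa using this
    · intro j _ hj
      simp only [Finset.mem_insert, Finset.mem_singleton, not_or] at hj
      rw [hoth j hj.1 hj.2]; simp
  have hUV1 : (U * V) * (U * V)ᴴ = 1 := by
    have : (U * V) * (U * V)ᴴ = U * (V * Vᴴ) * Uᴴ := by
      rw [conjTranspose_mul]; simp only [Matrix.mul_assoc]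
    rw [this, hV1, mul_one, hU1]
  have hUV2 : (U * V)ᴴ * (U * V) = 1 := by
    have : (U * V)ᴴ * (U * V) = Vᴴ * (Uᴴ * U) * V := by
      rw [conjTranspose_mul]; simp only [Matrix.mul_assoc]
    rw [this, hU2, mul_one, hV2]
  rcases le_total (g b) (g a) with hle | hle
  · refine ⟨z, U * V, g, a, b, hUV1, hUV2, ?_⟩
    rw [← hUV]
    exact ⟨hGd, hab, hle, fun j h1 h2 => hord b j hb (hoth j h1 h2), htr⟩
  · refine ⟨z, U * V, g, b, a, hUV1, hUV2, ?_⟩
    rw [← hUV]
    exact ⟨hGd, hab.symm, hle, fun j h1 h2 => hord a j ha (hoth j h2 h1), by rw [add_comm]; exact htr⟩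

end Pool.Agent.Helper71.LW
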