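import Mathlib

/-!
# Lu-Wenzel: common definitions
-/

set_option autoImplicit false

namespace Pool.Agent.Helper71.LW

open Matrix

variable {K : Type} [RCLike K] {n : ℕ}

/-- Squared Frobenius norm. -/
noncomputable def fro2 (X : Matrix (Fin n) (Fin n) K) : ℝ := ∑ i, ∑ j, ‖X i j‖ ^ 2

/-- The least squared Frobenius norm of `W - z`, `z` scalar. -/
noncomputable def nu (W : Matrix (Fin n) (Fin n) K) : ℝ := fro2 W - ‖W.trace‖ ^ 2 / n

/-- `b_ij = |W^* e_i|^2 + |W e_j|^2 - 2 Re (conj w_i * w_j) = |[W^*, E_ij]|^2`. -/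
noncomputable def bb (W : Matrix (Fin n) (Fin n) K) (i j : Fin n) : ℝ :=
  (∑ l, ‖W i l‖ ^ 2) + (∑ l, ‖W l j‖ ^ 2) - 2 * RCLike.re (star (W i i) * W j j)

/-- `W` is in canonical form with respect to the real numbers `g`, the indices `i0`, `i1`:
`W W^* + W^* W` is the diagonal matrix of the `g i`, the two largest are `g i0 >= g i1`, and
`W i0 i0 + W i1 i1 = 0`. -/
structure Canon (W : Matrix (Fin n) (Fin n) K) (g : Fin n → ℝ) (i0 i1 : Fin n) : Prop where
  diag : W * Wᴴ + Wᴴ * W = Matrix.diagonal (fun i => (g i : K))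
  ne : i0 ≠ i1
  le01 : g i1 ≤ g i0
  le : ∀ j, j ≠ i0 → j ≠ i1 → g j ≤ g i1
  tr : W i0 i0 + W i1 i1 = 0

/-- A symmetric weight `f` which is admissible for `W`, `g` and with small trace. -/
structure Weight (W : Matrix (Fin n) (Fin n) K) (g : Fin n → ℝ) (f : Fin n → Fin n → ℝ) : Prop where
  nonneg : ∀ i j, 0 ≤ f i j
  le_one : ∀ i j, f i j ≤ 1
  adm : ∀ i j, (1 - f i j) * (g i + g j) ≤ nu W
  bound : ∑ i, ∑ j, f i j * bb W i j ≤ 2 * nu W

end Pool.Agent.Helper71.LW
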