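import Pool.Agent.Helper71.LW.Defs
import Pool.Agent.Helper90.Lw.Weights

/-!
# Lu-Wenzel, part C: from matrices to scalars
-/

set_option autoImplicit false

namespace Pool.Agent.Helper71.LW

open Matrix

variable {K : Type} [RCLike K] {n : ℕ}

/-- the complex number with the same real and imaginary part -/
noncomputable def toC (a : K) : ℂ := ⟨RCLike.re a, RCLike.im a⟩

lemma toC_add (a b : K) : toC (a + b) = toC a + toC b := by
  apply Complex.ext <;> simp [toC]

lemma toC_zero : toC (0 : K) = 0 := by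
  apply Complex.ext <;> simp [toC]

lemma toC_sum {ι : Type} (s : Finset ι) (f : ι → K) : toC (∑ i ∈ s, f i) = ∑ i ∈ s, toC (f i) := by
  classical
  induction s using Finset.induction_on with
  | empty => simp [toC_zero]
  | insert a s ha ih => rw [Finset.sum_insert ha, Finset.sum_insert ha, toC_add, ih]

lemma toC_norm_sq (a : K) : ‖toC a‖ ^ 2 = ‖a‖ ^ 2 := by
  rw [Complex.sq_norm, Complex.normSq_apply, RCLike.norm_sq_eq_def]
  simp [toC]

lemma toC_inner (a b : K) : (starRingEnd ℂ (toC a) * toC b).re = RCLike.re (star a * b) := by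
  rw [RCLike.star_def]
  simp [toC, Complex.mul_re, RCLike.mul_re]

theorem exists_weight (W : Matrix (Fin n) (Fin n) K) (g : Fin n → ℝ) (i0 i1 : Fin n)
    (h : Canon W g i0 i1) : ∃ f, Weight W g f := by
  set w : Fin n → ℂ := fun i => toC (W i i) with hw
  set m : Fin n → Fin n → ℝ := fun i j => if i = j then 0 else ‖W i j‖ ^ 2 + ‖W j i‖ ^ 2 with hm
  have hrow : ∀ i, ∑ l, ‖W i l‖ ^ 2 + ∑ l, ‖W l i‖ ^ 2 = g i := by
    intro i
    have h1 := congrFun (congrFun h.diag i) i
    rw [diagonal_apply_eq, Matrix.add_apply, mul_apply, mul_apply] at h1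
    have e1 : ∑ l, W i l * Wᴴ l i = ((∑ l, ‖W i l‖ ^ 2 : ℝ) : K) := by
      push_cast
      refine Finset.sum_congr rfl fun l _ => ?_
      rw [conjTranspose_apply, RCLike.star_def, RCLike.mul_conj]
    have e2 : ∑ l, Wᴴ i l * W l i = ((∑ l, ‖W l i‖ ^ 2 : ℝ) : K) := by
      push_cast
      refine Finset.sum_congr rfl fun l _ => ?_
      rw [conjTranspose_apply, RCLike.star_def, RCLike.conj_mul]
    rw [e1, e2, ← RCLike.ofReal_add] at h1
    exact RCLike.ofReal_injective h1
  have hmsum : ∀ i, ∑ j, m i j = g i - 2 * ‖W i i‖ ^ 2 := by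
    intro i
    rw [← hrow i, ← Finset.sum_add_distrib]
    rw [← Finset.add_sum_erase _ _ (Finset.mem_univ i),
      ← Finset.add_sum_erase _ (fun l => ‖W i l‖ ^ 2 + ‖W l i‖ ^ 2) (Finset.mem_univ i)]
    have : ∑ j ∈ Finset.univ.erase i, m i j =
        ∑ j ∈ Finset.univ.erase i, (‖W i j‖ ^ 2 + ‖W j i‖ ^ 2) := by
      refine Finset.sum_congr rfl fun j hj => ?_
      rw [hm]; simp only [(Finset.ne_of_mem_erase hj).symm, if_false]
    rw [this, hm]; simp only [if_true]; ring
  have hwn : ∀ i, ‖w i‖ ^ 2 = ‖W i i‖ ^ 2 := fun i => toC_norm_sq _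
  have hfro : 2 * fro2 W = ∑ i, g i := by
    rw [two_mul]
    conv_lhs => rw [fro2]
    rw [show (∑ i, ∑ j, ‖W i j‖ ^ 2) + ∑ i, ∑ j, ‖W i j‖ ^ 2 =
      (∑ i, ∑ j, ‖W i j‖ ^ 2) + ∑ i, ∑ j, ‖W j i‖ ^ 2 by congr 1; exact Finset.sum_comm]
    rw [← Finset.sum_add_distrib]
    exact Finset.sum_congr rfl fun i _ => hrow i
  obtain ⟨f, f1, f2, f3, f4, f5⟩ := Pool.Agent.Helper90.Lw.exists_weights i0 i1 h.ne w m
    (by intro i j; rw [hm]; dsimp only; split_ifs <;> positivity)
    (by
      intro i j; rw [hm]; dsimp only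
      rcases eq_or_ne i j with rfl | hij
      · rfl
      · rw [if_neg hij, if_neg hij.symm, add_comm])
    (by intro i; rw [hm]; simp)
    (by rw [hw]; dsimp only; rw [← toC_add, h.tr, toC_zero])
    g (by intro i; rw [hmsum, hwn]; ring)
    (by
      intro i
      rcases eq_or_ne i i0 with rfl | h0
      · exact le_rfl
      · rcases eq_or_ne i i1 with rfl | h1
        · exact h.le01
        · exact (h.le i h0 h1).trans h.le01)
    (by
      intro i h0
      rcases eq_or_ne i i1 with rfl | h1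
      · exact le_rfl
      · exact h.le i h0 h1)
    (nu W) (by
      rw [nu, Fintype.card_fin]
      have e1 : ‖∑ i, w i‖ ^ 2 = ‖W.trace‖ ^ 2 := by
        rw [hw, ← toC_sum, toC_norm_sq]; rfl
      rw [e1]
      have e2 : ∑ i, ∑ j, m i j = ∑ i, g i - 2 * ∑ i, ‖W i i‖ ^ 2 := by
        rw [Finset.mul_sum, ← Finset.sum_sub_distrib]
        exact Finset.sum_congr rfl fun i _ => hmsum i
      have e3 : ∑ i, ‖w i‖ ^ 2 = ∑ i, ‖W i i‖ ^ 2 := Finset.sum_congr rfl fun i _ => hwn i
      rw [e2, e3, ← hfro]; ring)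
  refine ⟨f, f2, f3, f4, le_trans (le_of_eq ?_) f5⟩
  have e1 : ∑ i, ∑ j, f i j * bb W i j = ∑ i, ∑ j, f i j * bb W j i := by
    rw [Finset.sum_comm]
    exact Finset.sum_congr rfl fun i _ => Finset.sum_congr rfl fun j _ => by rw [f1 j i]
  have e2 : (∑ i, ∑ j, f i j * bb W i j) + ∑ i, ∑ j, f i j * bb W j i =
      2 * ∑ i, ∑ j, f i j * ((g i + g j) / 2 - 2 * (starRingEnd ℂ (w i) * w j).re) := by
    rw [← Finset.sum_add_distrib, Finset.mul_sum]
    refine Finset.sum_congr rfl fun i _ => ?_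
    rw [← Finset.sum_add_distrib, Finset.mul_sum]
    refine Finset.sum_congr rfl fun j _ => ?_
    have e3 : (starRingEnd ℂ (w i) * w j).re = RCLike.re (star (W i i) * W j j) := toC_inner _ _
    have e4 : RCLike.re (star (W j j) * W i i) = RCLike.re (star (W i i) * W j j) := by
      have : star (star (W i i) * W j j) = star (W j j) * W i i := by rw [star_mul, star_star]
      rw [← this, RCLike.star_def, RCLike.conj_re]
    rw [e3, bb, bb, e4, ← hrow i, ← hrow j]
    ring
  linarith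

end Pool.Agent.Helper71.LW
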