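import Pool.Agent.Helper71.LW.Choice5
import Pool.Agent.Helper71.LW.WeightC
import Pool.Agent.Helper14.LW.Trace

/-!
# The fundamental Lu-Wenzel inequality
-/

set_option autoImplicit false

namespace Pool.Agent.Helper71.LW

open Matrix Pool.Agent.Helper14.LW

variable {K : Type} [RCLike K] {n : ℕ}

lemma fund_conj (X Y U : Matrix (Fin n) (Fin n) K) (z : K) (hU : U * Uᴴ = 1) :
    Uᴴ * (X - z • (1 : Matrix (Fin n) (Fin n) K)) * U * (Uᴴ * Y * U) -
      Uᴴ * Y * U * (Uᴴ * (X - z • (1 : Matrix (Fin n) (Fin n) K)) * U) =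
      Uᴴ * (X * Y - Y * X) * U := by
  have e1 : Uᴴ * (X - z • (1 : Matrix (Fin n) (Fin n) K)) * U * (Uᴴ * Y * U)
      = Uᴴ * ((X - z • (1 : Matrix (Fin n) (Fin n) K)) * Y) * U := by
    calc _ = Uᴴ * (X - z • (1 : Matrix (Fin n) (Fin n) K)) * (U * Uᴴ) * Y * U := by
          simp only [Matrix.mul_assoc]
      _ = _ := by rw [hU]; simp only [Matrix.mul_assoc, Matrix.mul_one]
  have e2 : Uᴴ * Y * U * (Uᴴ * (X - z • (1 : Matrix (Fin n) (Fin n) K)) * U)
      = Uᴴ * (Y * (X - z • (1 : Matrix (Fin n) (Fin n) K))) * U := by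
    calc _ = Uᴴ * Y * (U * Uᴴ) * (X - z • (1 : Matrix (Fin n) (Fin n) K)) * U := by
          simp only [Matrix.mul_assoc]
      _ = _ := by rw [hU]; simp only [Matrix.mul_assoc, Matrix.mul_one]
  rw [e1, e2, ← Matrix.sub_mul, ← Matrix.mul_sub]
  congr 2
  rw [Matrix.sub_mul, Matrix.mul_sub, Matrix.smul_mul, Matrix.mul_smul, Matrix.one_mul,
    Matrix.mul_one]
  abel

/-- The orthonormal family form of the Lu-Wenzel inequality. -/
theorem fund_orthonormal {ι : Type} [Fintype ι] (X : Matrix (Fin n) (Fin n) K)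
    (Y : ι → Matrix (Fin n) (Fin n) K) (hY : Orthonormal K (fun p => toE (Y p))) :
    ∑ p, fro2 (X * Y p - Y p * X) ≤ (Fintype.card ι + 2) * nu X := by
  classical
  rcases Nat.lt_or_ge n 2 with hn | hn
  · have hc : ∀ p, fro2 (X * Y p - Y p * X) = 0 := by
      intro p
      have : X * Y p - Y p * X = 0 := by
        ext i j
        obtain rfl | rfl : n = 0 ∨ n = 1 := by omega
        · exact i.elim0
        · obtain rfl := Subsingleton.elim i 0
          obtain rfl := Subsingleton.elim j 0
          rw [Matrix.sub_apply, Matrix.mul_apply, Matrix.mul_apply]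
          simp [mul_comm]
      rw [this]
      simp [fro2]
    have hnu : 0 ≤ nu X := by
      obtain rfl | rfl : n = 0 ∨ n = 1 := by omega
      · simp [nu, fro2]
      · simp [nu, fro2, Matrix.trace]
    rw [Finset.sum_eq_zero fun p _ => hc p]
    positivity
  · obtain ⟨z, U, g, i0, i1, hU1, hU2, hc⟩ := exists_canon hn X
    obtain ⟨f, hf⟩ := exists_weight _ g i0 i1 hc
    have hν := nu_nonneg_of_weight _ g hc.diag f hf ⟨0, by omega⟩
    have hYo : Orthonormal K (fun p => toE (Uᴴ * Y p * U)) := by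
      rw [orthonormal_iff_ite]
      intro p q
      have hpq := orthonormal_iff_ite.1 hY p q
      rw [inner_toE]
      have h1 : (Uᴴ * Y p * U)ᴴ * (Uᴴ * Y q * U) = Uᴴ * ((Y p)ᴴ * Y q) * U := by
        simp only [Matrix.conjTranspose_mul, Matrix.conjTranspose_conjTranspose]
        calc Uᴴ * ((Y p)ᴴ * U) * (Uᴴ * Y q * U) = Uᴴ * (Y p)ᴴ * (U * Uᴴ) * Y q * U := by
              simp only [Matrix.mul_assoc]
          _ = Uᴴ * ((Y p)ᴴ * Y q) * U := by
              rw [hU1]; simp only [Matrix.mul_assoc, Matrix.mul_one]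
      rw [h1, Matrix.trace_mul_comm, ← Matrix.mul_assoc, hU1, Matrix.one_mul, ← inner_toE]
      exact hpq
    have h := sum_fro2_le Finset.univ _ g hc.diag f hf hν _ hYo
    rw [nu_conj X z U (by omega) hU1 hU2] at h
    refine le_trans (le_of_eq ?_) h
    refine Finset.sum_congr rfl fun p _ => ?_
    rw [fund_conj X (Y p) U z hU1, fro2_conj U _ hU1]

lemma nu_nonneg' (X : Matrix (Fin n) (Fin n) K) : 0 ≤ nu X := by
  have h := fund_orthonormal (ι := Empty) X (fun p => p.elim)
    ⟨fun p => p.elim, fun p => p.elim⟩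
  simp at h
  linarith

/-- The isotropic form: half of the family is enough. -/
theorem fund_isotropic {ι : Type} [Fintype ι] (X : Matrix (Fin n) (Fin n) K)
    (Y : ι → Matrix (Fin n) (Fin n) K) (hY : Orthonormal K (fun p => toE (Y p)))
    (hiso : ∀ p q, (Y p * (X * Y q - Y q * X)).trace = 0) :
    ∑ p, fro2 (X * Y p - Y p * X) ≤ (Fintype.card ι + 1) * nu X := by
  classical
  set J : Matrix (Fin n) (Fin n) K → Matrix (Fin n) (Fin n) K := fun A => (X * A - A * X)ᴴ with hJ
  have hJn : ∀ A, fro2 (J A) = fro2 (X * A - A * X) := by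
    intro A
    simp only [hJ, fro2, conjTranspose_apply, norm_star]
    rw [Finset.sum_comm]
  have hskew : ∀ A B, inner K (toE (J A)) (toE B) = - inner K (toE (J B)) (toE A) := by
    intro A B
    rw [inner_toE, inner_toE]
    simp only [hJ, conjTranspose_conjTranspose]
    rw [Matrix.sub_mul, Matrix.sub_mul, trace_sub, trace_sub]
    have e1 : (X * B * A).trace = (A * X * B).trace := by
      rw [Matrix.mul_assoc A X B, Matrix.trace_mul_comm A (X * B)]
    have e2 : (B * X * A).trace = (X * A * B).trace := by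
      rw [Matrix.mul_assoc B X A, Matrix.trace_mul_comm B (X * A)]
    rw [e1, e2]
    ring
  set F : Submodule K (EuclideanSpace K (Fin n × Fin n)) :=
    Submodule.span K (Set.range fun p => toE (J (Y p))) with hF
  set b := stdOrthonormalBasis K F with hb
  have hfin : Module.finrank K F ≤ Fintype.card ι := finrank_range_le_card _
  -- the matrices of the second family
  set Z : Fin (Module.finrank K F) → Matrix (Fin n) (Fin n) K :=
    fun j => Matrix.of fun i k => (b j : EuclideanSpace K (Fin n × Fin n)) (i, k) with hZ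
  have hZE : ∀ j, toE (Z j) = (b j : EuclideanSpace K (Fin n × Fin n)) := by
    intro j
    ext q
    simp [toE, hZ]
  have hbo : Orthonormal K (fun j => toE (Z j)) := by
    have h1 := b.orthonormal.comp_linearIsometry F.subtypeₗᵢ
    have h2 : (fun j => toE (Z j)) = F.subtypeₗᵢ ∘ b := by
      funext j
      rw [hZE]
      rfl
    rw [h2]
    exact h1
  -- the two families are orthogonal
  have hYF : ∀ p, ∀ x ∈ F, inner K (toE (Y p)) x = 0 := by
    intro p x hx
    induction hx using Submodule.span_induction with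
    | mem x hx =>
      obtain ⟨q, rfl⟩ := hx
      rw [← inner_conj_symm, inner_toE]
      simp only [hJ, conjTranspose_conjTranspose]
      rw [Matrix.trace_mul_comm, hiso, map_zero]
    | zero => exact inner_zero_right _
    | add x y _ _ hx hy => rw [inner_add_right, hx, hy, add_zero]
    | smul c x _ hx => rw [inner_smul_right, hx, mul_zero]
  have hall : Orthonormal K (fun s : ι ⊕ Fin (Module.finrank K F) => toE (Sum.elim Y Z s)) := by
    refine ⟨?_, ?_⟩
    · rintro (p | j)
      · exact hY.1 p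
      · exact hbo.1 j
    · rintro (p | j) (q | k) hne
      · exact hY.2 (fun h => hne (by rw [h]))
      · simp only [Sum.elim_inl, Sum.elim_inr]
        rw [hZE]
        exact hYF p _ (b k).2
      · simp only [Sum.elim_inl, Sum.elim_inr]
        rw [hZE, ← inner_conj_symm, hYF q _ (b j).2, map_zero]
      · exact hbo.2 (fun h => hne (by rw [h]))
  have hA := fund_orthonormal X (Sum.elim Y Z) hall
  rw [Fintype.sum_sum_type, Fintype.card_sum, Fintype.card_fin] at hA
  simp only [Sum.elim_inl, Sum.elim_inr] at hA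
  -- the second sum is at least the first
  have hB : ∑ p, fro2 (X * Y p - Y p * X) ≤ ∑ j, fro2 (X * Z j - Z j * X) := by
    have h1 : ∀ p, fro2 (X * Y p - Y p * X) =
        ∑ j, ‖inner K (toE (Z j)) (toE (J (Y p)))‖ ^ 2 := by
      intro p
      rw [← hJn, ← norm_toE]
      have hmem : toE (J (Y p)) ∈ F := Submodule.subset_span ⟨p, rfl⟩
      have h2 := b.sum_sq_norm_inner_right ⟨toE (J (Y p)), hmem⟩
      have h3 : ‖(⟨toE (J (Y p)), hmem⟩ : F)‖ = ‖toE (J (Y p))‖ := rfl
      rw [h3] at h2
      rw [← h2]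
      refine Finset.sum_congr rfl fun j _ => ?_
      rw [hZE]
      rfl
    have h2 : ∀ j, ∑ p, ‖inner K (toE (Y p)) (toE (J (Z j)))‖ ^ 2 ≤
        fro2 (X * Z j - Z j * X) := by
      intro j
      rw [← hJn, ← norm_toE]
      exact hY.sum_inner_products_le (x := toE (J (Z j))) (s := Finset.univ)
    refine le_trans (le_of_eq ?_) (Finset.sum_le_sum fun j _ => h2 j)
    rw [Finset.sum_comm]
    refine Finset.sum_congr rfl fun p _ => ?_
    rw [h1 p]
    refine Finset.sum_congr rfl fun j _ => ?_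
    rw [norm_inner_symm, hskew, norm_neg, norm_inner_symm]
  have hν := nu_nonneg' X
  have hfin' : (Module.finrank K F : ℝ) ≤ Fintype.card ι := by exact_mod_cast hfin
  push_cast at hA
  nlinarith [mul_le_mul_of_nonneg_right hfin' hν]

/-- From all subfamilies to weights. -/
lemma weights_le {ι : Type} [Fintype ι] (φ β : ι → ℝ) (M N : ℝ) (hM : 0 ≤ M)
    (h0 : ∀ i, 0 ≤ β i) (h1 : ∀ i, β i ≤ M)
    (h : ∀ T : Finset ι, ∑ i ∈ T, φ i ≤ N) : ∑ i, β i * φ i ≤ M * N := by
  classical
  calc ∑ i, β i * φ i ≤ ∑ i, if 0 < φ i then M * φ i else 0 := by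
        refine Finset.sum_le_sum fun i _ => ?_
        split_ifs with hi
        · exact mul_le_mul_of_nonneg_right (h1 i) hi.le
        · exact mul_nonpos_of_nonneg_of_nonpos (h0 i) (not_lt.1 hi)
    _ = M * ∑ i ∈ Finset.univ.filter (fun i => 0 < φ i), φ i := by
        rw [Finset.mul_sum, Finset.sum_filter]
    _ ≤ M * N := mul_le_mul_of_nonneg_left (h _) hM

lemma fro2_smul (c : K) (A : Matrix (Fin n) (Fin n) K) : fro2 (c • A) = ‖c‖ ^ 2 * fro2 A := by
  simp only [fro2, Matrix.smul_apply, smul_eq_mul, norm_mul, mul_pow, Finset.mul_sum]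

/-- normalisation of an orthogonal family; the index type is the set of nonzero members -/
lemma orth_normalize {ι : Type} [Fintype ι] (B : ι → Matrix (Fin n) (Fin n) K)
    (hB : ∀ i j, i ≠ j → (B i * (B j)ᴴ).trace = 0) (T : Finset ι)
    (hT : ∀ i ∈ T, fro2 (B i) ≠ 0) :
    Orthonormal K (fun i : T => toE ((((Real.sqrt (fro2 (B i)))⁻¹ : ℝ) : K) • B i)) := by
  refine ⟨?_, ?_⟩
  · rintro ⟨i, hi⟩
    have h1 : ‖toE ((((Real.sqrt (fro2 (B i)))⁻¹ : ℝ) : K) • B i)‖ ^ 2 = 1 := by
      rw [norm_toE, fro2_smul, RCLike.norm_ofReal, sq_abs, inv_pow,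
        Real.sq_sqrt (fro2_nonneg _), inv_mul_cancel₀ (hT i hi)]
    have h2 := norm_nonneg (toE ((((Real.sqrt (fro2 (B i)))⁻¹ : ℝ) : K) • B i))
    nlinarith [sq_nonneg (‖toE ((((Real.sqrt (fro2 (B i)))⁻¹ : ℝ) : K) • B i)‖ - 1)]
  · rintro ⟨i, hi⟩ ⟨j, hj⟩ hne
    have hij : j ≠ i := fun h => hne (Subtype.ext h.symm)
    simp only
    rw [inner_toE, Matrix.conjTranspose_smul, Matrix.smul_mul, Matrix.mul_smul,
      Matrix.trace_smul, Matrix.trace_smul, Matrix.trace_mul_comm, hB j i hij]
    simp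

lemma comm_smul' (c : K) (X A : Matrix (Fin n) (Fin n) K) :
    X * (c • A) - (c • A) * X = c • (X * A - A * X) := by
  rw [Matrix.mul_smul, Matrix.smul_mul, smul_sub]

/-- Weighted form: pairwise orthogonal families. -/
theorem fund_orthogonal {ι : Type} [Fintype ι] (X : Matrix (Fin n) (Fin n) K)
    (B : ι → Matrix (Fin n) (Fin n) K) (M : ℝ) (hM0 : 0 ≤ M) (hM : ∀ i, fro2 (B i) ≤ M)
    (hB : ∀ i j, i ≠ j → (B i * (B j)ᴴ).trace = 0) :
    (∑ i, fro2 (X * B i - B i * X) ≤ (2 * M + ∑ i, fro2 (B i)) * nu X) ∧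
    ((∀ i j, (B i * (X * B j - B j * X)).trace = 0) →
      ∑ i, fro2 (X * B i - B i * X) ≤ (M + ∑ i, fro2 (B i)) * nu X) := by
  classical
  set e : ι → Matrix (Fin n) (Fin n) K :=
    fun i => (((Real.sqrt (fro2 (B i)))⁻¹ : ℝ) : K) • B i with he
  set φ : ι → ℝ := fun i => if fro2 (B i) = 0 then 0 else
    fro2 (X * e i - e i * X) - nu X with hφ
  have hν := nu_nonneg' X
  have hterm : ∀ i, fro2 (X * B i - B i * X) = fro2 (B i) * nu X + fro2 (B i) * φ i := by
    intro i
    by_cases h0 : fro2 (B i) = 0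
    · have hz : toE (B i) = 0 := by
        rw [← norm_eq_zero]
        have := norm_toE (B i)
        rw [h0] at this
        exact pow_eq_zero_iff (two_ne_zero) |>.1 this
      have hz' : B i = 0 := by
        ext a b
        have := congrFun (congrArg (fun v : EuclideanSpace K (Fin n × Fin n) => v.ofLp) hz) (a, b)
        simpa [toE] using this
      rw [h0, hz']
      simp [fro2]
    · simp only [hφ, if_neg h0, he, comm_smul', fro2_smul]
      rw [RCLike.norm_ofReal, sq_abs, inv_pow, Real.sq_sqrt (fro2_nonneg _)]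
      field_simp
      ring
  -- general reduction
  have hred : ∀ N : ℝ, 0 ≤ N → (∀ T : Finset ι, (∀ i ∈ T, fro2 (B i) ≠ 0) →
      ∑ i ∈ T, (fro2 (X * e i - e i * X) - nu X) ≤ N) →
      ∑ i, fro2 (X * B i - B i * X) ≤ M * N + (∑ i, fro2 (B i)) * nu X := by
    intro N hN hT
    have h1 := weights_le φ (fun i => fro2 (B i)) M N hM0 (fun i => fro2_nonneg _) hM (by
      intro T
      have h2 := hT (T.filter fun i => fro2 (B i) ≠ 0) (fun i hi => (Finset.mem_filter.1 hi).2)
      refine le_trans (le_of_eq ?_) h2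
      rw [Finset.sum_filter]
      refine Finset.sum_congr rfl fun i _ => ?_
      simp only [hφ]
      split_ifs <;> simp_all)
    simp only [hterm, Finset.sum_add_distrib, ← Finset.sum_mul]
    linarith
  refine ⟨?_, ?_⟩
  · have := hred (2 * nu X) (by positivity) (by
      intro T hT
      have h := fund_orthonormal X (fun i : T => e i) (orth_normalize B hB T hT)
      rw [Finset.sum_coe_sort T (fun i => fro2 (X * e i - e i * X)), Fintype.card_coe] at h
      rw [Finset.sum_sub_distrib, Finset.sum_const, nsmul_eq_mul]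
      linarith)
    linarith
  · intro hiso
    have := hred (nu X) hν (by
      intro T hT
      have h := fund_isotropic X (fun i : T => e i) (orth_normalize B hB T hT) (by
        rintro ⟨i, hi⟩ ⟨j, hj⟩
        simp only [he]
        rw [comm_smul', Matrix.smul_mul, Matrix.mul_smul, Matrix.trace_smul, Matrix.trace_smul,
          hiso i j]
        simp)
      rw [Finset.sum_coe_sort T (fun i => fro2 (X * e i - e i * X)), Fintype.card_coe] at h
      rw [Finset.sum_sub_distrib, Finset.sum_const, nsmul_eq_mul]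
      linarith)
    linarith

end Pool.Agent.Helper71.LW
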